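import Mathlib

set_option autoImplicit false
set_option linter.unusedVariables false

open Set Filter Topology

namespace Pool.Agent.NH82.Scat

variable {Y : Type*} [TopologicalSpace Y]

/-- `R` is a strict linear order on the set `A`. -/
structure Lin {Y : Type*} (A : Set Y) (R : Y → Y → Prop) : Prop where
  irr : ∀ x ∈ A, ¬ R x x
  tr : ∀ x ∈ A, ∀ y ∈ A, ∀ z ∈ A, R x y → R y z → R x z
  tot : ∀ x ∈ A, ∀ y ∈ A, x ≠ y → R x y ∨ R y x

/-- The upper open rays of `R` in `A` are relatively open. -/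
def Up (A : Set Y) (R : Y → Y → Prop) : Prop :=
  ∀ a ∈ A, ∀ x ∈ A, R a x → ∀ᶠ y in 𝓝[A] x, R a y

/-- The left neighbourhoods of `x` in `A` are order neighbourhoods. -/
def LN (A : Set Y) (R : Y → Y → Prop) (x : Y) : Prop :=
  ∀ U ∈ 𝓝[A] x, (∀ a ∈ A, ¬ R a x) ∨ ∃ a ∈ A, R a x ∧ ∀ y ∈ A, R a y → R y x → y ∈ U

/-- The relative topology of `A` is the order topology of `R`. -/
structure Lots (A : Set Y) (R : Y → Y → Prop) : Prop where
  lin : Lin A R
  up : Up A R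
  dn : Up A (fun x y => R y x)
  ln : ∀ x ∈ A, LN A R x
  rn : ∀ x ∈ A, LN A (fun x y => R y x) x

def HasMin {Y : Type*} (A : Set Y) (R : Y → Y → Prop) : Prop := ∃ a ∈ A, ∀ x ∈ A, ¬ R x a

def Ord (A : Set Y) : Prop := ∃ R : Y → Y → Prop, Lots A R

def OrdAt (A : Set Y) (z : Y) : Prop :=
  ∃ R : Y → Y → Prop, Lots A R ∧ ∀ x ∈ A, x ≠ z → R z x

def Sep (A B : Set Y) : Prop := (∀ x ∈ A, Bᶜ ∈ 𝓝 x) ∧ (∀ x ∈ B, Aᶜ ∈ 𝓝 x)

def Scatt (Y : Type*) [TopologicalSpace Y] : Prop :=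
  ∀ A : Set Y, A.Nonempty → ∃ x ∈ A, ∃ U : Set Y, IsOpen U ∧ U ∩ A = {x}

theorem OrdAt.ord {A : Set Y} {z : Y} (h : OrdAt A z) : Ord A := by
  obtain ⟨R, h, _⟩ := h
  exact ⟨R, h⟩

theorem Lin.swap {Y : Type*} {A : Set Y} {R : Y → Y → Prop} (h : Lin A R) :
    Lin A (fun x y => R y x) where
  irr := h.irr
  tr := fun x hx y hy z hz h1 h2 => h.tr z hz y hy x hx h2 h1
  tot := fun x hx y hy hxy => (h.tot x hx y hy hxy).symm

theorem Lots.swap {A : Set Y} {R : Y → Y → Prop} (h : Lots A R) : Lots A (fun x y => R y x) where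
  lin := h.lin.swap
  up := h.dn
  dn := h.up
  ln := h.rn
  rn := h.ln

theorem Lin.asymm {Y : Type*} {A : Set Y} {R : Y → Y → Prop} (h : Lin A R) {x y : Y} (hx : x ∈ A)
    (hy : y ∈ A) (h1 : R x y) : ¬ R y x := fun h2 => h.irr x hx (h.tr x hx y hy x hx h1 h2)

theorem Lin.mono {Y : Type*} {A B : Set Y} {R : Y → Y → Prop} (h : Lin A R) (hBA : B ⊆ A) :
    Lin B R where
  irr := fun x hx => h.irr x (hBA hx)
  tr := fun x hx y hy z hz => h.tr x (hBA hx) y (hBA hy) z (hBA hz)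
  tot := fun x hx y hy => h.tot x (hBA hx) y (hBA hy)

theorem Up.mono {A B : Set Y} {R : Y → Y → Prop} (h : Up A R) (hBA : B ⊆ A) : Up B R := by
  intro a ha x hx hax
  exact (h a (hBA ha) x (hBA hx) hax).filter_mono (nhdsWithin_mono x hBA)

theorem LN.mono {A B : Set Y} {R : Y → Y → Prop} {x : Y} (hA : Lin A R) (hBA : B ⊆ A)
    (hconv : ∀ a ∈ B, ∀ c ∈ B, ∀ b ∈ A, R a b → R b c → b ∈ B) (hx : x ∈ B)
    (h : LN A R x) : LN B R x := by
  intro U hU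
  obtain ⟨V, hV, hVU⟩ : ∃ V ∈ 𝓝[A] x, V ∩ B ⊆ U := by
    rw [mem_nhdsWithin] at hU
    obtain ⟨O, hO, hxO, hOU⟩ := hU
    exact ⟨O, mem_nhdsWithin_of_mem_nhds (hO.mem_nhds hxO), hOU⟩
  by_cases hmin : ∀ a ∈ B, ¬ R a x
  · exact Or.inl hmin
  · push Not at hmin
    obtain ⟨a', ha'B, ha'x⟩ := hmin
    right
    rcases h V hV with h1 | ⟨a, haA, hax, hI⟩
    · exact absurd ha'x (h1 a' (hBA ha'B))
    · by_cases haa : R a' a
      · exact ⟨a, hconv a' ha'B x hx a haA haa hax, hax,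
          fun y hy h1 h2 => hVU ⟨hI y (hBA hy) h1 h2, hy⟩⟩
      · refine ⟨a', ha'B, ha'x, fun y hy h1 h2 => hVU ⟨hI y (hBA hy) ?_ h2, hy⟩⟩
        rcases eq_or_ne a a' with rfl | hne
        · exact h1
        · rcases hA.tot a haA a' (hBA ha'B) hne with h3 | h3
          · exact hA.tr a haA a' (hBA ha'B) y (hBA hy) h3 h1
          · exact absurd h3 haa

theorem Lots.mono {A B : Set Y} {R : Y → Y → Prop} (h : Lots A R) (hBA : B ⊆ A)
    (hconv : ∀ a ∈ B, ∀ c ∈ B, ∀ b ∈ A, R a b → R b c → b ∈ B) : Lots B R where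
  lin := h.lin.mono hBA
  up := h.up.mono hBA
  dn := h.dn.mono hBA
  ln := fun x hx => (h.ln x (hBA hx)).mono h.lin hBA hconv hx
  rn := fun x hx => (h.rn x (hBA hx)).mono h.lin.swap hBA
    (fun a ha c hc b hb h1 h2 => hconv c hc a ha b hb h2 h1) hx

theorem Sep.symm {A B : Set Y} (h : Sep A B) : Sep B A := ⟨h.2, h.1⟩

theorem Sep.mono {A B A' B' : Set Y} (h : Sep A B) (hA : A' ⊆ A) (hB : B' ⊆ B) : Sep A' B' :=
  ⟨fun x hx => mem_of_superset (h.1 x (hA hx)) (compl_subset_compl.2 hB),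
    fun x hx => mem_of_superset (h.2 x (hB hx)) (compl_subset_compl.2 hA)⟩

theorem Sep.union_left {A B C : Set Y} (h : Sep A C) (h' : Sep B C) : Sep (A ∪ B) C := by
  refine ⟨fun x hx => hx.elim (h.1 x) (h'.1 x), fun x hx => ?_⟩
  rw [compl_union]
  exact inter_mem (h.2 x hx) (h'.2 x hx)

theorem Sep.notMem {A B : Set Y} (h : Sep A B) {x : Y} (hx : x ∈ A) : x ∉ B :=
  mem_of_mem_nhds (h.1 x hx)

theorem Sep.mem_left {A B : Set Y} (h : Sep A B) {x : Y} (hx : x ∈ A) : A ∈ 𝓝[A ∪ B] x := by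
  have h1 : Bᶜ ∈ 𝓝[A ∪ B] x := mem_nhdsWithin_of_mem_nhds (h.1 x hx)
  have h2 : A ∪ B ∈ 𝓝[A ∪ B] x := self_mem_nhdsWithin
  filter_upwards [h1, h2] with y hy1 hy2
  exact hy2.resolve_right hy1

/-- concatenation -/
def cat {Y : Type*} (A B : Set Y) (R S : Y → Y → Prop) (x y : Y) : Prop :=
  (x ∈ A ∧ y ∈ A ∧ R x y) ∨ (x ∈ B ∧ y ∈ B ∧ S x y) ∨ (x ∈ A ∧ y ∈ B)

theorem cat_swap {Y : Type*} (A B : Set Y) (R S : Y → Y → Prop) :
    (fun x y => cat A B R S y x) = cat B A (fun x y => S y x) (fun x y => R y x) := by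
  funext x y
  apply propext
  unfold cat
  tauto

theorem cat_lin {A B : Set Y} {R S : Y → Y → Prop} (hA : Lots A R) (hB : Lots B S)
    (h : Sep A B) : Lin (A ∪ B) (cat A B R S) where
  irr := by
    rintro x hx (h1 | h1 | h1)
    · exact hA.lin.irr x h1.1 h1.2.2
    · exact hB.lin.irr x h1.1 h1.2.2
    · exact h.notMem h1.1 h1.2
  tr := by
    rintro x hx y hy z hz (h1 | h1 | h1) (h2 | h2 | h2)
    · exact Or.inl ⟨h1.1, h2.2.1, hA.lin.tr x h1.1 y h1.2.1 z h2.2.1 h1.2.2 h2.2.2⟩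
    · exact absurd h2.1 (h.notMem h1.2.1)
    · exact Or.inr (Or.inr ⟨h1.1, h2.2⟩)
    · exact absurd h1.2.1 (h.notMem h2.1)
    · exact Or.inr (Or.inl ⟨h1.1, h2.2.1, hB.lin.tr x h1.1 y h1.2.1 z h2.2.1 h1.2.2 h2.2.2⟩)
    · exact absurd h1.2.1 (h.notMem h2.1)
    · exact absurd h1.2 (h.notMem h2.1)
    · exact Or.inr (Or.inr ⟨h1.1, h2.2.1⟩)
    · exact Or.inr (Or.inr ⟨h1.1, h2.2⟩)
  tot := by
    rintro x (hx | hx) y (hy | hy) hxy
    · rcases hA.lin.tot x hx y hy hxy with h1 | h1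
      · exact Or.inl (Or.inl ⟨hx, hy, h1⟩)
      · exact Or.inr (Or.inl ⟨hy, hx, h1⟩)
    · exact Or.inl (Or.inr (Or.inr ⟨hx, hy⟩))
    · exact Or.inr (Or.inr (Or.inr ⟨hy, hx⟩))
    · rcases hB.lin.tot x hx y hy hxy with h1 | h1
      · exact Or.inl (Or.inr (Or.inl ⟨hx, hy, h1⟩))
      · exact Or.inr (Or.inr (Or.inl ⟨hy, hx, h1⟩))

theorem cat_up {A B : Set Y} {R S : Y → Y → Prop} (hA : Lots A R) (hB : Lots B S)
    (h : Sep A B) : Up (A ∪ B) (cat A B R S) := by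
  have hle : ∀ x ∈ A, 𝓝[A ∪ B] x ≤ 𝓝[A] x := fun x hx => nhdsWithin_le_of_mem (h.mem_left hx)
  have hle' : ∀ x ∈ B, 𝓝[A ∪ B] x ≤ 𝓝[B] x := fun x hx => by
    rw [union_comm]; exact nhdsWithin_le_of_mem (h.symm.mem_left hx)
  rintro a ha x hx (h1 | h1 | h1)
  · have h2 := (hA.up a h1.1 x h1.2.1 h1.2.2).filter_mono (hle x h1.2.1)
    filter_upwards [h2, h.mem_left h1.2.1] with y hy1 hy2
    exact Or.inl ⟨h1.1, hy2, hy1⟩
  · have h2 := (hB.up a h1.1 x h1.2.1 h1.2.2).filter_mono (hle' x h1.2.1)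
    have h3 := h.symm.mem_left h1.2.1
    rw [union_comm] at h3
    filter_upwards [h2, h3] with y hy1 hy2
    exact Or.inr (Or.inl ⟨h1.1, hy2, hy1⟩)
  · have h3 := h.symm.mem_left h1.2
    rw [union_comm] at h3
    filter_upwards [h3] with y hy2
    exact Or.inr (Or.inr ⟨h1.1, hy2⟩)

theorem cat_ln {A B : Set Y} {R S : Y → Y → Prop} (hA : Lots A R) (hB : Lots B S)
    (h : Sep A B) (hm : (HasMin A (fun x y => R y x) ∧ HasMin B S) ∨
      (¬ HasMin A (fun x y => R y x) ∧ ¬ HasMin B S)) :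
    ∀ x ∈ A ∪ B, LN (A ∪ B) (cat A B R S) x := by
  rintro x (hx | hx) U hU
  · have hU' : U ∈ 𝓝[A] x := nhdsWithin_mono x subset_union_left hU
    rcases hA.ln x hx U hU' with h1 | ⟨a, ha, hax, h1⟩
    · left
      rintro a ha (h2 | h2 | h2)
      · exact h1 a h2.1 h2.2.2
      · exact h.notMem hx h2.2.1
      · exact h.notMem hx h2.2
    · right
      refine ⟨a, Or.inl ha, Or.inl ⟨ha, hx, hax⟩, ?_⟩
      rintro y hy h2 (h3 | h3 | h3)
      · rcases h2 with h2 | h2 | h2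
        · exact h1 y h3.1 h2.2.2 h3.2.2
        · exact absurd h2.2.1 (h.notMem h3.1)
        · exact absurd h2.2 (h.notMem h3.1)
      · exact absurd h3.2.1 (h.notMem hx)
      · exact absurd h3.2 (h.notMem hx)
  · have hU' : U ∈ 𝓝[B] x := nhdsWithin_mono x subset_union_right hU
    rcases hB.ln x hx U hU' with h1 | ⟨a, ha, hax, h1⟩
    · rcases hm with ⟨⟨a, ha, ham⟩, -⟩ | ⟨-, hm⟩
      · right
        refine ⟨a, Or.inl ha, Or.inr (Or.inr ⟨ha, hx⟩), ?_⟩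
        rintro y hy h2 h3
        exfalso
        rcases h2 with h2 | h2 | h2
        · exact ham y h2.2.1 h2.2.2
        · exact h.notMem ha h2.1
        · rcases h3 with h3 | h3 | h3
          · exact h.notMem h3.1 h2.2
          · exact h1 y h2.2 h3.2.2
          · exact h.notMem h3.1 h2.2
      · exact absurd ⟨x, hx, h1⟩ hm
    · right
      refine ⟨a, Or.inr ha, Or.inr (Or.inl ⟨ha, hx, hax⟩), ?_⟩
      rintro y hy (h2 | h2 | h2) h3
      · exact absurd ha (h.notMem h2.1)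
      · rcases h3 with h3 | h3 | h3
        · exact absurd hx (h.notMem h3.2.1)
        · exact h1 y h3.1 h2.2.2 h3.2.2
        · exact absurd h2.2.1 (h.notMem h3.1)
      · exact absurd ha (h.notMem h2.1)

theorem Lots.cat {A B : Set Y} {R S : Y → Y → Prop} (hA : Lots A R) (hB : Lots B S)
    (h : Sep A B) (hm : (HasMin A (fun x y => R y x) ∧ HasMin B S) ∨
      (¬ HasMin A (fun x y => R y x) ∧ ¬ HasMin B S)) :
    Lots (A ∪ B) (cat A B R S) where
  lin := cat_lin hA hB h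
  up := cat_up hA hB h
  dn := by
    rw [cat_swap, union_comm]
    exact cat_up hB.swap hA.swap h.symm
  ln := cat_ln hA hB h hm
  rn := by
    rw [cat_swap, union_comm]
    refine cat_ln hB.swap hA.swap h.symm ?_
    rcases hm with hm | hm
    · exact Or.inl ⟨hm.2, hm.1⟩
    · exact Or.inr ⟨hm.2, hm.1⟩

theorem Lots.singleton (z : Y) : Lots ({z} : Set Y) (fun _ _ => False) where
  lin := ⟨fun _ _ h => h, fun _ _ _ _ _ _ h _ => h, fun x hx y hy h => absurd (hx.trans hy.symm) h⟩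
  up := fun _ _ _ _ h => h.elim
  dn := fun _ _ _ _ h => h.elim
  ln := fun _ _ _ _ => Or.inl (fun _ _ h => h)
  rn := fun _ _ _ _ => Or.inl (fun _ _ h => h)

theorem ord_empty : Ord (∅ : Set Y) :=
  ⟨fun _ _ => False, ⟨fun _ _ h => h, fun _ _ _ _ _ _ h _ => h, fun x hx => absurd hx (notMem_empty x)⟩,
    fun _ _ _ _ h => h.elim, fun _ _ _ _ h => h.elim, fun _ _ _ _ => Or.inl (fun _ _ h => h),
    fun _ _ _ _ => Or.inl (fun _ _ h => h)⟩

theorem ordAt_singleton (z : Y) : OrdAt ({z} : Set Y) z :=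
  ⟨fun _ _ => False, Lots.singleton z, fun x hx h => absurd hx h⟩

/-- the two parts of a cut at an isolated point which is not the minimum -/
theorem Lots.cut {A : Set Y} {R : Y → Y → Prop} (h : Lots A R) {x : Y} (hx : x ∈ A)
    (hiso : {x} ∈ 𝓝[A] x) (hmin : ∃ a ∈ A, R a x) :
    Lots {y ∈ A | R y x} R ∧ Lots {y ∈ A | ¬ R y x} R ∧
    HasMin {y ∈ A | R y x} (fun x y => R y x) ∧ HasMin {y ∈ A | ¬ R y x} R ∧
    Sep {y ∈ A | R y x} {y ∈ A | ¬ R y x} := by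
  refine ⟨h.mono (fun y hy => hy.1) ?_, h.mono (fun y hy => hy.1) ?_, ?_, ?_, ?_⟩
  · rintro a ⟨ha, ha'⟩ c ⟨hc, hc'⟩ b hb h1 h2
    exact ⟨hb, h.lin.tr b hb c hc x hx h2 hc'⟩
  · rintro a ⟨ha, ha'⟩ c ⟨hc, hc'⟩ b hb h1 h2
    exact ⟨hb, fun h3 => ha' (h.lin.tr a ha b hb x hx h1 h3)⟩
  · obtain ⟨a₀, ha₀, ha₀x⟩ := hmin
    rcases h.ln x hx {x} hiso with h1 | ⟨a, ha, hax, h1⟩
    · exact absurd ha₀x (h1 a₀ ha₀)
    · refine ⟨a, ⟨ha, hax⟩, ?_⟩
      rintro y ⟨hy, hyx⟩ hay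
      have := h1 y hy hay hyx
      rw [mem_singleton_iff] at this
      subst this
      exact h.lin.irr y hy hyx
  · refine ⟨x, ⟨hx, h.lin.irr x hx⟩, ?_⟩
    rintro y ⟨hy, hyx⟩ hyx'
    exact hyx hyx'
  · constructor
    · rintro y ⟨hy, hyx⟩
      have := h.dn x hx y hy hyx
      rw [eventually_nhdsWithin_iff] at this
      filter_upwards [this] with z hz hz'
      exact hz'.2 (hz hz'.1)
    · rintro y ⟨hy, hyx⟩
      rcases eq_or_ne y x with rfl | hne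
      · have : ∀ᶠ z in 𝓝[A] y, z ∈ ({y} : Set Y) := hiso
        rw [eventually_nhdsWithin_iff] at this
        filter_upwards [this] with z hz hz'
        have := hz hz'.1
        rw [mem_singleton_iff] at this
        subst this
        exact hyx hz'.2
      · have hxy : R x y := (h.lin.tot x hx y hy hne.symm).resolve_right hyx
        have := h.up x hx y hy hxy
        rw [eventually_nhdsWithin_iff] at this
        filter_upwards [this] with z hz hz'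
        exact h.lin.asymm hx hz'.1 (hz hz'.1) hz'.2

theorem union_cut {Y : Type*} {A : Set Y} (R : Y → Y → Prop) (x : Y) :
    {y ∈ A | ¬ R y x} ∪ {y ∈ A | R y x} = A := by
  ext y
  simp only [mem_union, mem_ofPred_eq]
  tauto

theorem exists_iso (hs : Scatt Y) {A : Set Y} (hA : A.Nonempty) :
    ∃ x ∈ A, {x} ∈ 𝓝[A] x := by
  obtain ⟨x, hx, U, hU, hUA⟩ := hs A hA
  refine ⟨x, hx, ?_⟩
  have hxU : x ∈ U := by
    have : x ∈ U ∩ A := by rw [hUA]; rfl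
    exact this.1
  rw [mem_nhdsWithin]
  exact ⟨U, hU, hxU, hUA.subset⟩

theorem exists_ordAt (hs : Scatt Y) {A : Set Y} (hA : A.Nonempty) (h : Ord A) :
    ∃ m ∈ A, OrdAt A m := by
  obtain ⟨R, hR⟩ := h
  by_cases h1 : HasMin A R
  · obtain ⟨m, hm, h1⟩ := h1
    exact ⟨m, hm, R, hR, fun x hx hxm => (hR.lin.tot x hx m hm hxm).resolve_left (h1 x hx)⟩
  by_cases h2 : HasMin A (fun x y => R y x)
  · obtain ⟨m, hm, h2⟩ := h2
    exact ⟨m, hm, fun x y => R y x, hR.swap,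
      fun x hx hxm => (hR.lin.tot x hx m hm hxm).resolve_right (h2 x hx)⟩
  obtain ⟨x, hx, hiso⟩ := exists_iso hs hA
  have hmin : ∃ a ∈ A, R a x := by
    by_contra hcon
    push Not at hcon
    exact h1 ⟨x, hx, hcon⟩
  obtain ⟨hl1, hl2, hm1, hm2, hsep⟩ := hR.cut hx hiso hmin
  have hcat := hl2.cat hl1 hsep.symm (Or.inr ⟨?_, ?_⟩)
  · rw [union_cut] at hcat
    refine ⟨x, hx, _, hcat, ?_⟩
    intro y hy hyx
    have hx2 : x ∈ {y ∈ A | ¬ R y x} := ⟨hx, hR.lin.irr x hx⟩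
    by_cases hyx' : R y x
    · exact Or.inr (Or.inr ⟨hx2, hy, hyx'⟩)
    · exact Or.inl ⟨hx2, ⟨hy, hyx'⟩, (hR.lin.tot x hx y hy hyx.symm).resolve_right hyx'⟩
  · rintro ⟨a, ⟨ha, hax⟩, hmax⟩
    apply h2
    refine ⟨a, ha, ?_⟩
    intro y hy hay
    have : y ∈ {y ∈ A | ¬ R y x} := by
      refine ⟨hy, fun hyx => hax ?_⟩
      exact hR.lin.tr a ha y hy x hx hay hyx
    exact hmax y this hay
  · rintro ⟨a, ⟨ha, hax⟩, hmin'⟩
    apply h1
    refine ⟨a, ha, ?_⟩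
    intro y hy hya
    exact hmin' y ⟨hy, hR.lin.tr y hy a ha x hx hya hax⟩ hya

theorem ord_union (hs : Scatt Y) {A B : Set Y} (hA : Ord A) (hB : Ord B) (h : Sep A B) :
    Ord (A ∪ B) := by
  rcases A.eq_empty_or_nonempty with rfl | hAn
  · rwa [empty_union]
  rcases B.eq_empty_or_nonempty with rfl | hBn
  · rwa [union_empty]
  obtain ⟨a, ha, R, hR, hRa⟩ := exists_ordAt hs hAn hA
  obtain ⟨b, hb, S, hS, hSb⟩ := exists_ordAt hs hBn hB
  refine ⟨_, hR.swap.cat hS h (Or.inl ⟨⟨a, ha, ?_⟩, ⟨b, hb, ?_⟩⟩)⟩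
  · intro x hx hxa
    rcases eq_or_ne x a with rfl | hne
    · exact hR.lin.irr x hx hxa
    · exact hR.lin.asymm hx ha hxa (hRa x hx hne)
  · intro x hx hxb
    rcases eq_or_ne x b with rfl | hne
    · exact hS.lin.irr x hx hxb
    · exact hS.lin.asymm hx hb hxb (hSb x hx hne)

theorem cat_of_min {Y : Type*} {A B : Set Y} {R S : Y → Y → Prop} {z : Y} (hz : z ∈ A)
    (hRz : ∀ x ∈ A, x ≠ z → R z x) : ∀ x ∈ A ∪ B, x ≠ z → cat A B R S z x := by
  rintro x (hx | hx) hne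
  · exact Or.inl ⟨hz, hx, hRz x hx hne⟩
  · exact Or.inr (Or.inr ⟨hz, hx⟩)

theorem ordAt_union (hs : Scatt Y) {A B : Set Y} {z : Y} (hz : z ∈ A) (hA : OrdAt A z)
    (hB : Ord B) (h : Sep A B) : OrdAt (A ∪ B) z := by
  rcases B.eq_empty_or_nonempty with rfl | hBn
  · rwa [union_empty]
  obtain ⟨R, hR, hRz⟩ := hA
  obtain ⟨b, hb, S, hS, hSb⟩ := exists_ordAt hs hBn hB
  have hSmin : HasMin B S := by
    refine ⟨b, hb, ?_⟩
    intro x hx hxb
    rcases eq_or_ne x b with rfl | hne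
    · exact hS.lin.irr x hx hxb
    · exact hS.lin.asymm hx hb hxb (hSb x hx hne)
  by_cases hmax : HasMin A (fun x y => R y x)
  · exact ⟨_, hR.cat hS h (Or.inl ⟨hmax, hSmin⟩), cat_of_min hz hRz⟩
  by_cases hBmax : HasMin B (fun x y => S y x)
  swap
  · exact ⟨_, hR.cat hS.swap h (Or.inr ⟨hmax, hBmax⟩), cat_of_min hz hRz⟩
  -- insert `B` at a jump of `A`
  have hne : (A \ {z}).Nonempty := by
    by_contra hcon
    rw [not_nonempty_iff_eq_empty, sdiff_eq_empty] at hcon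
    apply hmax
    refine ⟨z, hz, ?_⟩
    intro x hx hzx
    have := hcon hx
    rw [mem_singleton_iff] at this
    subst this
    exact hR.lin.irr x hx hzx
  obtain ⟨x, ⟨hx, hxz⟩, hiso⟩ := exists_iso hs hne
  have hxz' : x ≠ z := hxz
  have hzx : R z x := hRz x hx hxz'
  have hiso' : {x} ∈ 𝓝[A] x := by
    have h1 := hR.up z hz x hx hzx
    have h2 : ∀ᶠ y in 𝓝[A] x, y ∈ A := self_mem_nhdsWithin
    have h3 : A \ {z} ∈ 𝓝[A] x := by
      filter_upwards [h1, h2] with y hy1 hy2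
      refine ⟨hy2, fun hyz => ?_⟩
      rw [mem_singleton_iff] at hyz
      subst hyz
      exact hR.lin.irr y hy2 hy1
    exact nhdsWithin_le_of_mem h3 hiso
  obtain ⟨hl1, hl2, hm1, hm2, hsep⟩ := hR.cut hx hiso' ⟨z, hz, hzx⟩
  set A1 : Set Y := {y ∈ A | R y x} with hA1
  set A2 : Set Y := {y ∈ A | ¬ R y x} with hA2
  have hA1A : A1 ⊆ A := fun y hy => hy.1
  have hA2A : A2 ⊆ A := fun y hy => hy.1
  have hz1 : z ∈ A1 := ⟨hz, hzx⟩
  have hc1 := hl1.cat hS (h.mono hA1A subset_rfl) (Or.inl ⟨hm1, hSmin⟩)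
  have hc2 := hc1.cat hl2 (hsep.union_left (h.symm.mono subset_rfl hA2A))
    (Or.inl ⟨?_, hm2⟩)
  · have hun : A1 ∪ B ∪ A2 = A ∪ B := by
      have : A2 ∪ A1 = A := union_cut R x
      rw [← this]
      ext y
      simp only [mem_union]
      tauto
    rw [hun] at hc2
    refine ⟨_, hc2, ?_⟩
    have h1 : ∀ y ∈ A1, y ≠ z → R z y := fun y hy => hRz y (hA1A hy)
    have h2 := cat_of_min (B := B) (S := S) hz1 h1
    have h3 := cat_of_min (B := A2) (S := R) (Or.inl hz1 : z ∈ A1 ∪ B) h2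
    rw [hun] at h3
    exact h3
  · obtain ⟨b', hb', hb'm⟩ := hBmax
    refine ⟨b', Or.inr hb', ?_⟩
    rintro y (hy | hy) (h4 | h4 | h4)
    · exact (h.notMem (hA1A h4.1)) hb'
    · exact h.notMem (hA1A hy) h4.2.1
    · exact h.notMem (hA1A h4.1) hb'
    · exact h.notMem (hA1A h4.1) hb'
    · exact hb'm y hy h4.2.2
    · exact h.notMem (hA1A h4.1) hb'

end Pool.Agent.NH82.Scat
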