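import Pool.Agent.NH82.Scat1

set_option autoImplicit false
set_option linter.unusedVariables false
set_option linter.unusedSectionVars false

open Set Filter Topology

namespace Pool.Agent.NH82.Scat

section Flip

variable {α : Type*} [TopologicalSpace α] [LinearOrder α]

/-- left-bad points: the closed upper ray is a neighbourhood, although the point has
elements below it, but no immediate predecessor. -/
def Bad (x : α) : Prop := Ici x ∈ 𝓝 x ∧ (∃ a, a < x) ∧ ∀ a < x, ∃ b, a < b ∧ b < x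

/-- a matching of consecutive left-bad points -/
structure Mat (M : α → α → Prop) : Prop where
  b1 : ∀ b q, M b q → Bad b
  b2 : ∀ b q, M b q → Bad q
  lt : ∀ b q, M b q → b < q
  cons : ∀ b q, M b q → ∀ p, Bad p → b < p → q ≤ p
  alt : ∀ b q r, M b q → ¬ M q r

/-- `x` and `y` lie in the same flipped block -/
def Fl (M : α → α → Prop) (x y : α) : Prop := ∃ b q, M b q ∧ b ≤ x ∧ x < q ∧ b ≤ y ∧ y < q

/-- the flipped order -/
def Nw (M : α → α → Prop) (x y : α) : Prop := (Fl M x y ∧ y < x) ∨ (¬ Fl M x y ∧ x < y)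

variable {M : α → α → Prop}

theorem Fl.symm {x y : α} (h : Fl M x y) : Fl M y x := by
  obtain ⟨b, q, hM, h1, h2, h3, h4⟩ := h
  exact ⟨b, q, hM, h3, h4, h1, h2⟩

theorem Mat.uniq (hM : Mat M) {b q b' q' x : α} (h : M b q) (h' : M b' q') (h1 : b ≤ x)
    (h2 : x < q) (h3 : b' ≤ x) (h4 : x < q') : b = b' ∧ q = q' := by
  have hb : b = b' := by
    rcases lt_trichotomy b b' with hlt | heq | hgt
    · exact absurd (hM.cons b q h b' (hM.b1 _ _ h') hlt) (not_le.2 (h3.trans_lt h2))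
    · exact heq
    · exact absurd (hM.cons b' q' h' b (hM.b1 _ _ h) hgt) (not_le.2 (h1.trans_lt h4))
  subst hb
  exact ⟨rfl, le_antisymm (hM.cons b q h q' (hM.b2 _ _ h') (hM.lt _ _ h'))
    (hM.cons b q' h' q (hM.b2 _ _ h) (hM.lt _ _ h))⟩

theorem Fl.trans (hM : Mat M) {x y z : α} (h : Fl M x y) (h' : Fl M y z) : Fl M x z := by
  obtain ⟨b, q, hM1, h1, h2, h3, h4⟩ := h
  obtain ⟨b', q', hM2, h1', h2', h3', h4'⟩ := h'
  obtain ⟨rfl, rfl⟩ := hM.uniq hM1 hM2 h3 h4 h1' h2'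
  exact ⟨b, q, hM1, h1, h2, h3', h4'⟩

theorem Fl.conv {x y z : α} (h : Fl M x z) (h1 : x ≤ y) (h2 : y ≤ z) : Fl M x y := by
  obtain ⟨b, q, hM1, h1', h2', h3', h4'⟩ := h
  exact ⟨b, q, hM1, h1', h2', h1'.trans h1, h2.trans_lt h4'⟩

theorem Fl.conv' {x y z : α} (h : Fl M x z) (h1 : x ≤ y) (h2 : y ≤ z) : Fl M y z := by
  obtain ⟨b, q, hM1, h1', h2', h3', h4'⟩ := h
  exact ⟨b, q, hM1, h1'.trans h1, h2.trans_lt h4', h3', h4'⟩

theorem nw_lin (hM : Mat M) : Lin (univ : Set α) (Nw M) where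
  irr := by
    rintro x - (h | h)
    · exact lt_irrefl _ h.2
    · exact lt_irrefl _ h.2
  tr := by
    rintro x - y - z - (⟨h1, h2⟩ | ⟨h1, h2⟩) (⟨h3, h4⟩ | ⟨h3, h4⟩)
    · exact Or.inl ⟨h1.trans hM h3, h4.trans h2⟩
    · right
      have h5 : ¬ Fl M x z := fun h => h3 (h1.symm.trans hM h)
      refine ⟨h5, ?_⟩
      rcases lt_trichotomy x z with h6 | h6 | h6
      · exact h6
      · subst h6; exact absurd h1.symm h3
      · exact absurd (h1.symm.conv h4.le h6.le) h3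
    · right
      have h5 : ¬ Fl M x z := fun h => h1 (h.trans hM h3.symm)
      refine ⟨h5, ?_⟩
      rcases lt_trichotomy x z with h6 | h6 | h6
      · exact h6
      · subst h6; exact absurd h3.symm h1
      · exact absurd (h3.symm.conv' h6.le h2.le) h1
    · right
      refine ⟨fun h => h1 (h.conv h2.le h4.le), h2.trans h4⟩
  tot := by
    rintro x - y - hxy
    by_cases h : Fl M x y
    · rcases lt_or_gt_of_ne hxy with h1 | h1
      · exact Or.inr (Or.inl ⟨h.symm, h1⟩)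
      · exact Or.inl (Or.inl ⟨h, h1⟩)
    · rcases lt_or_gt_of_ne hxy with h1 | h1
      · exact Or.inl (Or.inr ⟨h, h1⟩)
      · exact Or.inr (Or.inr ⟨fun h' => h h'.symm, h1⟩)

theorem isOpen_Ici_of_bad (hi : ∀ a : α, IsOpen (Ioi a)) {b : α} (hb : Bad b) :
    IsOpen (Ici b) := by
  rw [isOpen_iff_mem_nhds]
  intro x hx
  rcases eq_or_lt_of_le (mem_Ici.1 hx) with h | h
  · rw [← h]; exact hb.1
  · exact mem_of_superset ((hi b).mem_nhds h) Ioi_subset_Ici_self

theorem isClosed_Ici (hl : ∀ a : α, IsOpen (Iio a)) (b : α) : IsClosed (Ici b) := by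
  rw [← isOpen_compl_iff, compl_Ici]; exact hl b

theorem isOpen_block (hi : ∀ a : α, IsOpen (Ioi a)) (hl : ∀ a : α, IsOpen (Iio a)) {b q : α}
    (hb : Bad b) : IsOpen (Ico b q) := by
  rw [← Ici_inter_Iio]
  exact (isOpen_Ici_of_bad hi hb).inter (hl q)

theorem isOpen_block_compl (hi : ∀ a : α, IsOpen (Ioi a)) (hl : ∀ a : α, IsOpen (Iio a))
    {b q : α} (hq : Bad q) : IsOpen (Ico b q)ᶜ := by
  rw [← Ici_inter_Iio, compl_inter, compl_Ici, compl_Iio]
  exact (hl b).union (isOpen_Ici_of_bad hi hq)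

theorem nw_up (hi : ∀ a : α, IsOpen (Ioi a)) (hl : ∀ a : α, IsOpen (Iio a)) (hM : Mat M) :
    Up (univ : Set α) (Nw M) := by
  rintro a - x - hax
  rw [nhdsWithin_univ]
  by_cases hx : ∃ b q, M b q ∧ b ≤ x ∧ x < q
  · obtain ⟨b, q, hbq, hbx, hxq⟩ := hx
    have hV : Ico b q ∈ 𝓝 x := (isOpen_block hi hl (hM.b1 _ _ hbq)).mem_nhds ⟨hbx, hxq⟩
    rcases hax with ⟨h1, h2⟩ | ⟨h1, h2⟩
    · filter_upwards [hV, (hl a).mem_nhds h2] with y hy1 hy2
      refine Or.inl ⟨h1.trans hM ⟨b, q, hbq, hbx, hxq, hy1.1, hy1.2⟩, hy2⟩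
    · filter_upwards [hV] with y hy
      have hxy : Fl M x y := ⟨b, q, hbq, hbx, hxq, hy.1, hy.2⟩
      have h3 : ¬ Fl M a y := fun h => h1 (h.trans hM hxy.symm)
      refine Or.inr ⟨h3, ?_⟩
      by_contra hcon
      rw [not_lt] at hcon
      exact h1 ⟨b, q, hbq, hy.1.trans hcon, h2.trans hxq, hbx, hxq⟩
  · have hnf : ∀ y, ¬ Fl M y x := by
      rintro y ⟨b, q, hbq, h1, h2, h3, h4⟩
      exact hx ⟨b, q, hbq, h3, h4⟩
    rcases hax with ⟨h1, h2⟩ | ⟨h1, h2⟩
    · exact absurd h1 (hnf a)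
    · by_cases ha : ∃ b q, M b q ∧ b ≤ a ∧ a < q
      · obtain ⟨b, q, hbq, hba, haq⟩ := ha
        have hV : (Ico b q)ᶜ ∈ 𝓝 x :=
          (isOpen_block_compl hi hl (hM.b2 _ _ hbq)).mem_nhds (fun h => hx ⟨b, q, hbq, h.1, h.2⟩)
        filter_upwards [hV, (hi a).mem_nhds h2] with y hy1 hy2
        refine Or.inr ⟨?_, hy2⟩
        rintro ⟨b', q', hbq', h3, h4, h5, h6⟩
        obtain ⟨rfl, rfl⟩ := hM.uniq hbq hbq' hba haq h3 h4
        exact hy1 ⟨h5, h6⟩
      · filter_upwards [(hi a).mem_nhds h2] with y hy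
        refine Or.inr ⟨?_, hy⟩
        rintro ⟨b', q', hbq', h3, h4, h5, h6⟩
        exact ha ⟨b', q', hbq', h3, h4⟩

theorem nw_dn (hi : ∀ a : α, IsOpen (Ioi a)) (hl : ∀ a : α, IsOpen (Iio a)) (hM : Mat M) :
    Up (univ : Set α) (fun x y => Nw M y x) := by
  rintro a - x - hax
  rw [nhdsWithin_univ]
  by_cases hx : ∃ b q, M b q ∧ b ≤ x ∧ x < q
  · obtain ⟨b, q, hbq, hbx, hxq⟩ := hx
    have hV : Ico b q ∈ 𝓝 x := (isOpen_block hi hl (hM.b1 _ _ hbq)).mem_nhds ⟨hbx, hxq⟩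
    rcases hax with ⟨h1, h2⟩ | ⟨h1, h2⟩
    · filter_upwards [hV, (hi a).mem_nhds h2] with y hy1 hy2
      exact Or.inl ⟨Fl.trans hM ⟨b, q, hbq, hy1.1, hy1.2, hbx, hxq⟩ h1, hy2⟩
    · filter_upwards [hV] with y hy
      have hyx : Fl M y x := ⟨b, q, hbq, hy.1, hy.2, hbx, hxq⟩
      have h3 : ¬ Fl M y a := fun h => h1 (hyx.symm.trans hM h)
      refine Or.inr ⟨h3, ?_⟩
      by_contra hcon
      rw [not_lt] at hcon
      exact h1 ⟨b, q, hbq, hbx, hxq, hbx.trans h2.le, hcon.trans_lt hy.2⟩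
  · have hnf : ∀ y, ¬ Fl M x y := by
      rintro y ⟨b, q, hbq, h1, h2, h3, h4⟩
      exact hx ⟨b, q, hbq, h1, h2⟩
    rcases hax with ⟨h1, h2⟩ | ⟨h1, h2⟩
    · exact absurd h1 (hnf a)
    · by_cases ha : ∃ b q, M b q ∧ b ≤ a ∧ a < q
      · obtain ⟨b, q, hbq, hba, haq⟩ := ha
        have hV : (Ico b q)ᶜ ∈ 𝓝 x :=
          (isOpen_block_compl hi hl (hM.b2 _ _ hbq)).mem_nhds (fun h => hx ⟨b, q, hbq, h.1, h.2⟩)
        filter_upwards [hV, (hl a).mem_nhds h2] with y hy1 hy2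
        refine Or.inr ⟨?_, hy2⟩
        rintro ⟨b', q', hbq', h3, h4, h5, h6⟩
        obtain ⟨rfl, rfl⟩ := hM.uniq hbq hbq' hba haq h5 h6
        exact hy1 ⟨h3, h4⟩
      · filter_upwards [(hl a).mem_nhds h2] with y hy
        refine Or.inr ⟨?_, hy⟩
        rintro ⟨b', q', hbq', h3, h4, h5, h6⟩
        exact ha ⟨b', q', hbq', h5, h6⟩

/-- Left neighbourhoods for the new order. -/
theorem nw_ln (hL : ∀ x : α, ∀ U ∈ 𝓝 x, Ici x ∈ 𝓝 x ∨ ∃ a < x, Ioo a x ⊆ U)
    (hR : ∀ x : α, ∀ U ∈ 𝓝 x, (∀ y, y ≤ x) ∨ ∃ b > x, Ioo x b ⊆ U) (hM : Mat M)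
    {x : α} (hx : Bad x → (∃ q, M x q) ∨ ∃ b, M b x) : LN (univ : Set α) (Nw M) x := by
  intro U hU
  rw [nhdsWithin_univ] at hU
  by_cases hxf : ∃ b q, M b q ∧ b ≤ x ∧ x < q
  · -- flipped point
    obtain ⟨b, q, hbq, hbx, hxq⟩ := hxf
    rcases hR x U hU with h1 | ⟨c, hc, hcU⟩
    · exact absurd (h1 q) (not_le.2 hxq)
    · right
      -- find `c'` in the block
      obtain ⟨c', hc', hc'q, hc'U⟩ : ∃ c', x < c' ∧ c' < q ∧ Ioo x c' ⊆ U := by
        rcases lt_or_ge c q with h2 | h2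
        · exact ⟨c, hc, h2, hcU⟩
        · obtain ⟨c', h3, h4⟩ := (hM.b2 _ _ hbq).2.2 x hxq
          exact ⟨c', h3, h4, fun y hy => hcU ⟨hy.1, hy.2.trans (h4.trans_le h2)⟩⟩
      have hF : Fl M c' x := ⟨b, q, hbq, hbx.trans hc'.le, hc'q, hbx, hxq⟩
      refine ⟨c', mem_univ _, Or.inl ⟨hF, hc'⟩, ?_⟩
      rintro y - h2 h3
      rcases h2 with ⟨h2, h2'⟩ | ⟨h2, h2'⟩
      · rcases h3 with ⟨h3, h3'⟩ | ⟨h3, h3'⟩
        · exact hc'U ⟨h3', h2'⟩
        · exact absurd (h2.symm.trans hM hF) h3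
      · rcases h3 with ⟨h3, h3'⟩ | ⟨h3, h3'⟩
        · exact absurd (hF.trans hM h3.symm) h2
        · exact absurd (h2'.trans h3') (not_lt.2 hc'.le)
  · -- unflipped point
    have hnf : ∀ y, ¬ Fl M y x := by
      rintro y ⟨b, q, hbq, h1, h2, h3, h4⟩
      exact hxf ⟨b, q, hbq, h3, h4⟩
    have key : ∀ a, a < x → Ioo a x ⊆ U →
        ∃ a ∈ (univ : Set α), Nw M a x ∧ ∀ y ∈ (univ : Set α), Nw M a y → Nw M y x → y ∈ U := by
      intro a hax haU
      by_cases haf : ∃ b q, M b q ∧ b ≤ a ∧ a < q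
      · obtain ⟨b, q, hbq, hba, haq⟩ := haf
        have hqx : q ≤ x := by
          by_contra hcon
          rw [not_le] at hcon
          exact hxf ⟨b, q, hbq, hba.trans hax.le, hcon⟩
        rcases eq_or_lt_of_le hqx with heq | hlt
        · -- `x = q`
          subst heq
          refine ⟨b, mem_univ _, Or.inr ⟨hnf b, hba.trans_lt hax⟩, ?_⟩
          rintro y - h2 h3
          exfalso
          rcases h3 with ⟨h3, h3'⟩ | ⟨h3, h3'⟩
          · exact hnf y h3
          · rcases h2 with ⟨h2, h2'⟩ | ⟨h2, h2'⟩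
            · obtain ⟨b', q', hbq', h5, h6, h7, h8⟩ := h2
              obtain ⟨rfl, rfl⟩ := hM.uniq hbq hbq' le_rfl (hM.lt _ _ hbq) h5 h6
              exact absurd h2' (not_lt.2 h7)
            · exact h2 ⟨b, q, hbq, le_rfl, hM.lt _ _ hbq, h2'.le, h3'⟩
        · -- `q < x`
          have hqf : ∀ y, ¬ Fl M q y := by
            rintro y ⟨b', q', hbq', h5, h6, h7, h8⟩
            rcases eq_or_lt_of_le h5 with h9 | h9
            · subst h9
              exact hM.alt _ _ _ hbq hbq'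
            · exact absurd (hM.cons b' q' hbq' q (hM.b2 _ _ hbq) h9) (not_le.2 h6)
          refine ⟨q, mem_univ _, Or.inr ⟨hnf q, hlt⟩, ?_⟩
          rintro y - h2 h3
          rcases h2 with ⟨h2, h2'⟩ | ⟨h2, h2'⟩
          · exact absurd h2 (hqf y)
          · rcases h3 with ⟨h3, h3'⟩ | ⟨h3, h3'⟩
            · exact absurd h3 (hnf y)
            · exact haU ⟨haq.trans h2', h3'⟩
      · refine ⟨a, mem_univ _, Or.inr ⟨hnf a, hax⟩, ?_⟩
        rintro y - h2 h3
        rcases h2 with ⟨h2, h2'⟩ | ⟨h2, h2'⟩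
        · obtain ⟨b', q', hbq', h5, h6, h7, h8⟩ := h2
          exact absurd ⟨b', q', hbq', h5, h6⟩ haf
        · rcases h3 with ⟨h3, h3'⟩ | ⟨h3, h3'⟩
          · exact absurd h3 (hnf y)
          · exact haU ⟨h2', h3'⟩
    rcases hL x U hU with h1 | ⟨a, hax, haU⟩
    · by_cases hmin : ∃ a, a < x
      · by_cases hpred : ∀ a < x, ∃ b, a < b ∧ b < x
        · -- `x` is bad
          right
          rcases hx ⟨h1, hmin, hpred⟩ with ⟨q, hq⟩ | ⟨b, hb⟩
          · exact absurd ⟨x, q, hq, le_rfl, hM.lt _ _ hq⟩ hxf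
          · refine ⟨b, mem_univ _, Or.inr ⟨hnf b, hM.lt _ _ hb⟩, ?_⟩
            rintro y - h2 h3
            exfalso
            rcases h3 with ⟨h3, h3'⟩ | ⟨h3, h3'⟩
            · exact hnf y h3
            · rcases h2 with ⟨h2, h2'⟩ | ⟨h2, h2'⟩
              · obtain ⟨b', q', hbq', h5, h6, h7, h8⟩ := h2
                obtain ⟨rfl, rfl⟩ := hM.uniq hb hbq' le_rfl (hM.lt _ _ hb) h5 h6
                exact absurd h2' (not_lt.2 h7)
              · exact h2 ⟨b, x, hb, le_rfl, hM.lt _ _ hb, h2'.le, h3'⟩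
        · push Not at hpred
          obtain ⟨a, hax, ha⟩ := hpred
          right
          exact key a hax (fun y hy => absurd hy.2 (not_lt.2 (ha y hy.1)))
      · left
        rintro a - (⟨h2, h3⟩ | ⟨h2, h3⟩)
        · exact hnf a h2
        · exact hmin ⟨a, h3⟩
    · right
      exact key a hax haU

/-- Right neighbourhoods for the new order. -/
theorem nw_rn (hwf : {x : α | Bad x}.IsWF)
    (hL : ∀ x : α, ∀ U ∈ 𝓝 x, Ici x ∈ 𝓝 x ∨ ∃ a < x, Ioo a x ⊆ U)
    (hR : ∀ x : α, ∀ U ∈ 𝓝 x, (∀ y, y ≤ x) ∨ ∃ b > x, Ioo x b ⊆ U) (hM : Mat M)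
    (x : α) : LN (univ : Set α) (fun x y => Nw M y x) x := by
  intro U hU
  rw [nhdsWithin_univ] at hU
  by_cases hxf : ∃ b q, M b q ∧ b ≤ x ∧ x < q
  · obtain ⟨b, q, hbq, hbx, hxq⟩ := hxf
    right
    rcases eq_or_lt_of_le hbx with heq | hlt
    · subst heq
      refine ⟨q, mem_univ _, Or.inr ⟨?_, hxq⟩, ?_⟩
      · rintro ⟨b', q', hbq', h5, h6, h7, h8⟩
        obtain ⟨rfl, rfl⟩ := hM.uniq hbq hbq' le_rfl hxq h5 h6
        exact absurd h8 (lt_irrefl _)
      · rintro y - h2 h3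
        exfalso
        rcases h3 with ⟨h3, h3'⟩ | ⟨h3, h3'⟩
        · obtain ⟨b', q', hbq', h5, h6, h7, h8⟩ := h3
          obtain ⟨rfl, rfl⟩ := hM.uniq hbq hbq' le_rfl hxq h5 h6
          exact absurd h3' (not_lt.2 h7)
        · apply h3
          refine ⟨b, q, hbq, le_rfl, hxq, h3'.le, ?_⟩
          rcases h2 with ⟨h2, h2'⟩ | ⟨h2, h2'⟩
          · obtain ⟨b', q', hbq', h5, h6, h7, h8⟩ := h2
            rcases eq_or_lt_of_le h7 with h9 | h9
            · subst h9
              exact absurd hbq' (hM.alt _ _ _ hbq)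
            · exact absurd (hM.cons b' q' hbq' q (hM.b2 _ _ hbq) h9) (not_le.2 h8)
          · exact h2'
    · -- find `a'` in the block
      obtain ⟨a, hba, hax, haU⟩ : ∃ a, b ≤ a ∧ a < x ∧ Ioo a x ⊆ U := by
        rcases hL x U hU with h1 | ⟨a, hax, haU⟩
        · have hnb : ¬ Bad x := fun hbad => absurd (hM.cons b q hbq x hbad hlt) (not_le.2 hxq)
          have : ¬ ∀ a < x, ∃ b, a < b ∧ b < x := fun h => hnb ⟨h1, ⟨b, hlt⟩, h⟩
          push Not at this
          obtain ⟨a, hax, ha⟩ := this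
          refine ⟨a, ?_, hax, fun y hy => absurd hy.2 (not_lt.2 (ha y hy.1))⟩
          by_contra hcon
          rw [not_le] at hcon
          exact absurd hlt (not_lt.2 (ha b hcon))
        · rcases le_or_gt b a with h2 | h2
          · exact ⟨a, h2, hax, haU⟩
          · exact ⟨b, le_rfl, hlt, fun y hy => haU ⟨h2.trans hy.1, hy.2⟩⟩
      have hF : Fl M x a := ⟨b, q, hbq, hbx, hxq, hba, hax.trans hxq⟩
      refine ⟨a, mem_univ _, Or.inl ⟨hF, hax⟩, ?_⟩
      rintro y - h2 h3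
      rcases h2 with ⟨h2, h2'⟩ | ⟨h2, h2'⟩
      · rcases h3 with ⟨h3, h3'⟩ | ⟨h3, h3'⟩
        · exact haU ⟨h2', h3'⟩
        · exact absurd (hF.trans hM h2.symm) h3
      · rcases h3 with ⟨h3, h3'⟩ | ⟨h3, h3'⟩
        · exact absurd (h3.symm.trans hM hF) h2
        · exact absurd (h2'.trans hax) (not_lt.2 h3'.le)
  · -- unflipped point
    have hnf : ∀ y, ¬ Fl M x y := by
      rintro y ⟨b, q, hbq, h1, h2, h3, h4⟩
      exact hxf ⟨b, q, hbq, h1, h2⟩
    rcases hR x U hU with h1 | ⟨c, hc, hcU⟩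
    · left
      rintro a - (⟨h2, h3⟩ | ⟨h2, h3⟩)
      · exact hnf a h2
      · exact absurd h3 (not_lt.2 (h1 a))
    · right
      obtain ⟨c', hc', hc'U⟩ : ∃ c', x < c' ∧ (∀ y, ¬ Fl M y c') ∧ Ioo x c' ⊆ U := by
        by_cases hcf : ∃ b q, M b q ∧ b ≤ c ∧ c < q
        · obtain ⟨b, q, hbq, hbc, hcq⟩ := hcf
          have hxb : x < b := by
            by_contra hcon
            rw [not_lt] at hcon
            exact hxf ⟨b, q, hbq, hcon, hc.trans hcq⟩
          have hne : ({p : α | Bad p ∧ x < p}).Nonempty := ⟨b, hM.b1 _ _ hbq, hxb⟩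
          have hwf' : ({p : α | Bad p ∧ x < p}).IsWF := hwf.mono (fun p hp => hp.1)
          set p := hwf'.min hne with hp
          have hpm : Bad p ∧ x < p := hwf'.min_mem hne
          have hpl : ∀ p', Bad p' → x < p' → p ≤ p' := fun p' h1 h2 =>
            hwf'.min_le hne ⟨h1, h2⟩
          obtain ⟨c', h3, h4⟩ := hpm.1.2.2 x hpm.2
          refine ⟨c', h3, ?_, fun y hy => hcU ⟨hy.1, hy.2.trans (h4.trans_le ?_)⟩⟩
          · rintro y ⟨b', q', hbq', h5, h6, h7, h8⟩
            rcases lt_or_ge x b' with h9 | h9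
            · exact absurd (h7.trans_lt h4) (not_lt.2 (hpl b' (hM.b1 _ _ hbq') h9))
            · have : x < q' := h3.trans h8
              exact hxf ⟨b', q', hbq', h9, this⟩
          · exact (hpl b (hM.b1 _ _ hbq) hxb).trans hbc
        · refine ⟨c, hc, ?_, hcU⟩
          rintro y ⟨b', q', hbq', h5, h6, h7, h8⟩
          exact hcf ⟨b', q', hbq', h7, h8⟩
      refine ⟨c', mem_univ _, Or.inr ⟨hnf c', hc'⟩, ?_⟩
      rintro y - h2 h3
      rcases h2 with ⟨h2, h2'⟩ | ⟨h2, h2'⟩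
      · exact absurd h2 (hc'U.1 y)
      · rcases h3 with ⟨h3, h3'⟩ | ⟨h3, h3'⟩
        · exact absurd h3 (hnf y)
        · exact hc'U.2 ⟨h3', h2'⟩


theorem exists_odd {β : Type*} [LinearOrder β] (P : Set β) (hwf : P.IsWF) :
    ∃ odd : β → Prop, ∀ q ∈ P, odd q ↔ ∃ b ∈ P, b < q ∧ (∀ p ∈ P, b < p → q ≤ p) ∧ ¬ odd b := by
  classical
  have wf : WellFounded (fun a b : β => a < b ∧ a ∈ P ∧ b ∈ P) := by
    have := hwf
    rw [Set.IsWF, Set.wellFoundedOn_iff] at this
    exact this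
  let F : ∀ q : β, (∀ b : β, (b < q ∧ b ∈ P ∧ q ∈ P) → Prop) → Prop := fun q ih =>
    ∃ b, ∃ h : (b < q ∧ b ∈ P ∧ q ∈ P), (∀ p ∈ P, b < p → q ≤ p) ∧ ¬ ih b h
  refine ⟨wf.fix F, fun q hq => ?_⟩
  rw [wf.fix_eq]
  constructor
  · rintro ⟨b, h, h1, h2⟩
    exact ⟨b, h.2.1, h.1, h1, h2⟩
  · rintro ⟨b, hb, h, h1, h2⟩
    exact ⟨b, ⟨h, hb, hq⟩, h1, h2⟩

theorem nw_top (hM : Mat M) {y : α} (hy : ∀ x, x ≤ y) : ∀ x, x ≠ y → Nw M x y := by
  intro x hxy
  refine Or.inr ⟨?_, lt_of_le_of_ne (hy x) hxy⟩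
  rintro ⟨b, q, hbq, h1, h2, h3, h4⟩
  exact absurd h4 (not_lt.2 (hy q))

/-- A scattered space with a linear order all of whose defects are left-bad points which form
a well-ordered set is orderable. -/
theorem ord_of_bad_wf (hs : Scatt α) (hi : ∀ a : α, IsOpen (Ioi a)) (hl : ∀ a : α, IsOpen (Iio a))
    (hL : ∀ x : α, ∀ U ∈ 𝓝 x, Ici x ∈ 𝓝 x ∨ ∃ a < x, Ioo a x ⊆ U)
    (hR : ∀ x : α, ∀ U ∈ 𝓝 x, (∀ y, y ≤ x) ∨ ∃ b > x, Ioo x b ⊆ U)
    (hwf : {x : α | Bad x}.IsWF) :
    Ord (univ : Set α) ∧ ∀ y : α, (∀ x, x ≤ y) → OrdAt (univ : Set α) y := by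
  obtain ⟨odd, hodd⟩ := exists_odd {x : α | Bad x} hwf
  set M : α → α → Prop := fun b q => Bad b ∧ Bad q ∧ b < q ∧ (∀ p, Bad p → b < p → q ≤ p) ∧
    ¬ odd b with hMdef
  have hM : Mat M :=
    { b1 := fun b q h => h.1
      b2 := fun b q h => h.2.1
      lt := fun b q h => h.2.2.1
      cons := fun b q h => h.2.2.2.1
      alt := by
        rintro b q r ⟨h1, h2, h3, h4, h5⟩ ⟨h1', h2', h3', h4', h5'⟩
        apply h5'
        rw [hodd q h2]
        exact ⟨b, h1, h3, h4, h5⟩ }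
  have hm3 : ∀ p, Bad p → (odd p ∨ ∃ q, Bad q ∧ p < q) → (∃ q, M p q) ∨ ∃ b, M b p := by
    intro p hp hor
    by_cases ho : odd p
    · right
      obtain ⟨b, h1, h2, h3, h4⟩ := (hodd p hp).1 ho
      exact ⟨b, h1, hp, h2, h3, h4⟩
    · left
      have hne : ({q : α | Bad q ∧ p < q}).Nonempty := by
        rcases hor with h | ⟨q, hq⟩
        · exact absurd h ho
        · exact ⟨q, hq⟩
      have hwf' : ({q : α | Bad q ∧ p < q}).IsWF := hwf.mono (fun p hp => hp.1)
      have hmem := hwf'.min_mem hne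
      exact ⟨hwf'.min hne, hp, hmem.1, hmem.2, fun p' h1 h2 => hwf'.min_le hne ⟨h1, h2⟩, ho⟩
  have hlin := nw_lin hM
  have hup := nw_up hi hl hM
  have hdn := nw_dn hi hl hM
  have hrn := nw_rn hwf hL hR hM
  by_cases hall : ∀ p, Bad p → (odd p ∨ ∃ q, Bad q ∧ p < q)
  · have hlots : Lots (univ : Set α) (Nw M) := ⟨hlin, hup, hdn,
      fun x _ => nw_ln hL hR hM (fun hb => hm3 x hb (hall x hb)), fun x _ => hrn x⟩
    refine ⟨⟨_, hlots⟩, fun y hy => ⟨_, hlots.swap, fun x _ hxy => nw_top hM hy x hxy⟩⟩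
  · push Not at hall
    obtain ⟨p, hp, hpo, hpl⟩ := hall
    have hpf : ∀ y, ¬ Fl M p y := by
      rintro y ⟨b, q, hbq, h5, h6, h7, h8⟩
      exact absurd h6 (not_lt.2 (hpl q (hM.b2 _ _ hbq)))
    have hnp : ∀ y, Nw M y p ↔ y < p := by
      intro y
      constructor
      · rintro (⟨h1, h2⟩ | ⟨h1, h2⟩)
        · exact absurd h1.symm (hpf y)
        · exact h2
      · intro h
        exact Or.inr ⟨fun h1 => hpf y h1.symm, h⟩
    have hpn : ∀ y, p < y → Nw M p y := fun y hy => Or.inr ⟨hpf y, hy⟩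
    have hunm : ∀ x, Bad x → x ≠ p → (∃ q, M x q) ∨ ∃ b, M b x := by
      intro x hx hxp
      apply hm3 x hx
      rcases lt_or_gt_of_ne hxp with h1 | h1
      · exact Or.inr ⟨p, hp, h1⟩
      · exact absurd (hpl x hx) (not_le.2 h1)
    have hconv1 : ∀ a ∈ Iio p, ∀ c ∈ Iio p, ∀ b ∈ (univ : Set α), Nw M a b → Nw M b c →
        b ∈ Iio p := by
      intro a ha c hc b _ h1 h2
      exact (hnp b).1 (hlin.tr b (mem_univ _) c (mem_univ _) p (mem_univ _) h2 ((hnp c).2 hc))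
    have hconv2 : ∀ a ∈ Ici p, ∀ c ∈ Ici p, ∀ b ∈ (univ : Set α), Nw M a b → Nw M b c →
        b ∈ Ici p := by
      intro a ha c hc b _ h1 h2
      by_contra hcon
      rw [mem_Ici, not_le] at hcon
      have := (hnp a).1 (hlin.tr a (mem_univ _) b (mem_univ _) p (mem_univ _) h1 ((hnp b).2 hcon))
      exact absurd this (not_lt.2 ha)
    have hl1 : Lots (Iio p) (Nw M) :=
      { lin := hlin.mono (subset_univ _)
        up := hup.mono (subset_univ _)
        dn := hdn.mono (subset_univ _)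
        ln := fun x hx => (nw_ln hL hR hM (fun hb => hunm x hb (ne_of_lt hx))).mono hlin
          (subset_univ _) hconv1 hx
        rn := fun x hx => (hrn x).mono hlin.swap (subset_univ _)
          (fun a ha c hc b hb h1 h2 => hconv1 c hc a ha b hb h2 h1) hx }
    have hl2 : Lots (Ici p) (Nw M) :=
      { lin := hlin.mono (subset_univ _)
        up := hup.mono (subset_univ _)
        dn := hdn.mono (subset_univ _)
        ln := fun x hx => by
          rcases eq_or_ne x p with rfl | hne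
          · intro U hU
            left
            intro a ha h
            exact absurd ((hnp a).1 h) (not_lt.2 ha)
          · exact (nw_ln hL hR hM (fun hb => hunm x hb hne)).mono hlin
              (subset_univ _) hconv2 hx
        rn := fun x hx => (hrn x).mono hlin.swap (subset_univ _)
          (fun a ha c hc b hb h1 h2 => hconv2 c hc a ha b hb h2 h1) hx }
    have hsep : Sep (Ici p) (Iio p) := by
      constructor
      · intro x hx
        rw [compl_Iio]
        exact (isOpen_Ici_of_bad hi hp).mem_nhds hx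
      · intro x hx
        rw [compl_Ici]
        exact (hl p).mem_nhds hx
    have hun : Ici p ∪ Iio p = (univ : Set α) := by
      rw [union_comm]; exact Iio_union_Ici
    refine ⟨?_, fun y hy => ?_⟩
    · rw [← hun]
      exact ord_union hs ⟨_, hl2⟩ ⟨_, hl1⟩ hsep
    · rw [← hun]
      exact ordAt_union hs (hy p) ⟨_, hl2.swap, fun x _ hxy => nw_top hM hy x hxy⟩ ⟨_, hl1⟩ hsep

end Flip

section Fibre

/-- the order obtained from a map to a well-ordered set and orders of the fibres -/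
def Fib {α ι : Type*} (lt : ι → ι → Prop) (r : α → ι) (R : ι → α → α → Prop) (x y : α) : Prop :=
  lt (r x) (r y) ∨ (r x = r y ∧ R (r x) x y)

variable {α : Type*} [TopologicalSpace α]

theorem ord_of_fibres (hs : Scatt α) {ι : Type*} (lt : ι → ι → Prop) [IsWellOrder ι lt]
    (r : α → ι) (m : ι → α) (hrm : ∀ x, r (m (r x)) = r x)
    (hfib : ∀ x, OrdAt {y | r y = r x} (m (r x)))
    (h1 : ∀ i, IsOpen {x | lt (r x) i}) (h2 : ∀ i, IsOpen {x | lt i (r x)})
    (h3 : ∀ i, IsOpen {x | ¬ lt i (r x)})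
    (hT1 : ∀ x, x ≠ m (r x) → {y | r y = r x} ∈ 𝓝 x)
    (hT3 : ∀ x, x = m (r x) → {y | r y = r x} ∈ 𝓝 x ∨
      ∀ U ∈ 𝓝 x, ∃ a, lt (r a) (r x) ∧ ∀ y, lt (r a) (r y) → lt (r y) (r x) → y ∈ U) :
    Ord (univ : Set α) ∧ ∀ y : α, (∀ x, x ≠ y → lt (r x) (r y)) → OrdAt (univ : Set α) y := by
  classical
  -- choose the orders on the fibres
  have hch : ∀ i : ι, ∃ R : α → α → Prop, (∃ x, r x = i) →
      Lots {y | r y = i} R ∧ ∀ x ∈ {y | r y = i}, x ≠ m i → R (m i) x := by
    intro i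
    by_cases hi : ∃ x, r x = i
    · obtain ⟨x, rfl⟩ := hi
      obtain ⟨R, hR⟩ := hfib x
      exact ⟨R, fun _ => hR⟩
    · exact ⟨fun _ _ => False, fun h => absurd h hi⟩
  choose R hR using hch
  have hlots : ∀ x, Lots {y | r y = r x} (R (r x)) := fun x => (hR (r x) ⟨x, rfl⟩).1
  have hmin : ∀ x y, r y = r x → y ≠ m (r x) → R (r x) (m (r x)) y := fun x y h1 h2 =>
    (hR (r x) ⟨x, rfl⟩).2 y h1 h2
  have ltirr : ∀ i, ¬ lt i i := fun i => irrefl i
  have lttr : ∀ i j k, lt i j → lt j k → lt i k := fun i j k => _root_.trans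
  have lttri : ∀ i j, lt i j ∨ i = j ∨ lt j i := fun i j => trichotomous_of lt i j
  set N : α → α → Prop := Fib lt r R with hN
  have hirr : ∀ x, ¬ N x x := by
    rintro x (h | h)
    · exact ltirr _ h
    · exact (hlots x).lin.irr x rfl h.2
  have htr : ∀ x y z, N x y → N y z → N x z := by
    rintro x y z (h | ⟨h, h'⟩) (g | ⟨g, g'⟩)
    · exact Or.inl (lttr _ _ _ h g)
    · exact Or.inl (g ▸ h)
    · exact Or.inl (h ▸ g)
    · refine Or.inr ⟨h.trans g, ?_⟩
      rw [← h] at g'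
      exact (hlots x).lin.tr x rfl y h.symm z (h.trans g).symm h' g'
  have htri : ∀ x y, N x y ∨ x = y ∨ N y x := by
    intro x y
    rcases lttri (r x) (r y) with h | h | h
    · exact Or.inl (Or.inl h)
    · rcases eq_or_ne x y with h4 | h4
      · exact Or.inr (Or.inl h4)
      · rcases (hlots x).lin.tot x rfl y h.symm h4 with h5 | h5
        · exact Or.inl (Or.inr ⟨h, h5⟩)
        · exact Or.inr (Or.inr (Or.inr ⟨h.symm, h ▸ h5⟩))
    · exact Or.inr (Or.inr (Or.inl h))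
  have : IsStrictTotalOrder α N :=
    { irrefl := hirr
      trans := htr
      trichotomous := fun a b h1 h2 => (htri a b).elim (fun h => absurd h h1)
        (fun h => h.elim id (fun h => absurd h h2)) }
  let _ : LinearOrder α := linearOrderOfSTO N
  have hltN : ∀ x y : α, x < y ↔ N x y := fun x y => Iff.rfl
  have hfibopen : ∀ x, IsOpen {y | ¬ lt (r x) (r y)} := fun x => h3 _
  -- neighbourhoods in fibres
  have hi : ∀ a : α, IsOpen (Ioi a) := by
    intro a
    rw [isOpen_iff_mem_nhds]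
    intro x hx
    rcases hx with h | ⟨h, h'⟩
    · exact mem_of_superset ((h2 (r a)).mem_nhds h) (fun y hy => Or.inl hy)
    · have hxm : x ≠ m (r x) := by
        intro hxm
        rcases eq_or_ne a (m (r a)) with h4 | h4
        · rw [← h, ← h4] at hxm
          subst hxm
          exact (hlots x).lin.irr x rfl h'
        · have h5 := hmin a a rfl h4
          rw [h, ← hxm] at h5
          rw [h] at h'
          exact (hlots x).lin.asymm h rfl h' h5
      have h6 := (hlots a).up a rfl x h.symm h'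
      rw [eventually_nhdsWithin_iff] at h6
      filter_upwards [h6, hT1 x hxm] with y hy1 hy2
      have hy3 : r y = r a := (show r y = r x from hy2).trans h.symm
      exact Or.inr ⟨hy3.symm, hy1 hy3⟩
  have hl : ∀ a : α, IsOpen (Iio a) := by
    intro a
    rw [isOpen_iff_mem_nhds]
    intro x hx
    rcases hx with h | ⟨h, h'⟩
    · exact mem_of_superset ((h1 (r a)).mem_nhds h) (fun y hy => Or.inl hy)
    · rw [h] at h'
      have h6 := (hlots a).dn a rfl x h h'
      rw [eventually_nhdsWithin_iff] at h6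
      filter_upwards [h6, (h3 (r a)).mem_nhds (show ¬ lt (r a) (r x) by rw [h]; exact ltirr _)]
        with y hy1 hy2
      rcases lttri (r y) (r a) with h7 | h7 | h7
      · exact Or.inl h7
      · exact Or.inr ⟨h7, h7 ▸ hy1 h7⟩
      · exact absurd h7 hy2
  have keyln : ∀ x : α, x ≠ m (r x) → ∀ U ∈ 𝓝 x, ∃ a < x, Ioo a x ⊆ U := by
    intro x hxm U hU
    rcases (hlots x).ln x rfl U (mem_nhdsWithin_of_mem_nhds hU) with h4 | ⟨a, ha, hax, h4⟩
    · exact absurd (hmin x x rfl hxm) (h4 _ (hrm x))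
    · have ha' : r a = r x := ha
      refine ⟨a, Or.inr ⟨ha', ha' ▸ hax⟩, ?_⟩
      rintro y ⟨hy1, hy2⟩
      rcases hy1 with h5 | ⟨h5, h5'⟩
      · rcases hy2 with h6 | ⟨h6, h6'⟩
        · rw [ha'] at h5
          exact absurd (lttr _ _ _ h5 h6) (ltirr _)
        · rw [h6, ha'] at h5
          exact absurd h5 (ltirr _)
      · rcases hy2 with h6 | ⟨h6, h6'⟩
        · rw [← h5, ha'] at h6
          exact absurd h6 (ltirr _)
        · rw [ha'] at h5'
          rw [h6] at h6'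
          exact h4 y h6 h5' h6'
  have hL : ∀ x : α, ∀ U ∈ 𝓝 x, Ici x ∈ 𝓝 x ∨ ∃ a < x, Ioo a x ⊆ U := by
    intro x U hU
    rcases eq_or_ne x (m (r x)) with hxm | hxm
    · rcases hT3 x hxm with h4 | h4
      · left
        filter_upwards [h4] with y hy
        have hy' : r y = r x := hy
        rcases eq_or_ne y x with h5 | h5
        · rw [h5]; exact mem_Ici.2 le_rfl
        · have h6 := hmin x y hy' (hxm ▸ h5)
          rw [← hxm] at h6
          exact mem_Ici.2 (le_of_lt (Or.inr ⟨hy'.symm, h6⟩))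
      · obtain ⟨a, ha, haU⟩ := h4 U hU
        by_cases hex : ∃ a', lt (r a) (r a') ∧ lt (r a') (r x)
        · right
          obtain ⟨a', ha1, ha2⟩ := hex
          refine ⟨a', Or.inl ha2, ?_⟩
          rintro y ⟨hy1, hy2⟩
          apply haU y
          · rcases hy1 with h5 | ⟨h5, h5'⟩
            · exact lttr _ _ _ ha1 h5
            · rw [← h5]; exact ha1
          · rcases hy2 with h6 | ⟨h6, h6'⟩
            · exact h6
            · exfalso
              rcases eq_or_ne y x with h7 | h7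
              · rw [h7] at h6'
                exact (hlots x).lin.irr x rfl h6'
              · have h8 := hmin x y h6 (hxm ▸ h7)
                rw [← hxm] at h8
                rw [h6] at h6'
                exact (hlots x).lin.asymm h6 rfl h6' h8
        · left
          push Not at hex
          filter_upwards [(h2 (r a)).mem_nhds ha, (h3 (r x)).mem_nhds (ltirr (r x))] with y hy1 hy2
          have hy' : r y = r x := by
            rcases lttri (r y) (r x) with h7 | h7 | h7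
            · exact absurd h7 (hex y hy1)
            · exact h7
            · exact absurd h7 hy2
          rcases eq_or_ne y x with h5 | h5
          · rw [h5]; exact mem_Ici.2 le_rfl
          · have h6 := hmin x y hy' (hxm ▸ h5)
            rw [← hxm] at h6
            exact mem_Ici.2 (le_of_lt (Or.inr ⟨hy'.symm, h6⟩))
    · exact Or.inr (keyln x hxm U hU)
  have hR' : ∀ x : α, ∀ U ∈ 𝓝 x, (∀ y, y ≤ x) ∨ ∃ b > x, Ioo x b ⊆ U := by
    intro x U hU
    rcases (hlots x).rn x rfl U (mem_nhdsWithin_of_mem_nhds hU) with h4 | ⟨a, ha, hax, h4⟩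
    · by_cases hex : ∃ y, lt (r x) (r y)
      · right
        have hwf : WellFounded lt := IsWellFounded.wf
        obtain ⟨y₀, hy₀⟩ := hex
        have hne : ({i : ι | lt (r x) i ∧ ∃ y, r y = i}).Nonempty := ⟨r y₀, hy₀, y₀, rfl⟩
        obtain ⟨i, ⟨hi1, y, hy⟩, hi2⟩ := hwf.has_min _ hne
        subst hy
        refine ⟨m (r y), Or.inl (by rw [hrm]; exact hi1), ?_⟩
        rintro z ⟨hz1, hz2⟩
        exfalso
        rcases hz1 with h5 | ⟨h5, h5'⟩
        · rcases hz2 with h6 | ⟨h6, h6'⟩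
          · rw [hrm] at h6
            exact hi2 (r z) ⟨h5, z, rfl⟩ h6
          · rw [hrm] at h6
            rcases eq_or_ne z (m (r y)) with h7 | h7
            · rw [← h7] at h6'
              exact (hlots z).lin.irr z rfl h6'
            · have h8 := hmin y z h6 h7
              rw [h6] at h6'
              exact (hlots y).lin.asymm h6 (hrm y) h6' h8
        · exact h4 z h5.symm h5'
      · left
        push Not at hex
        intro y
        rcases lttri (r x) (r y) with h5 | h5 | h5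
        · exact absurd h5 (hex y)
        · rcases eq_or_ne y x with h6 | h6
          · rw [h6]
          · rcases (hlots x).lin.tot y h5.symm x rfl h6 with h7 | h7
            · exact le_of_lt (Or.inr ⟨h5.symm, h5 ▸ h7⟩)
            · exact absurd h7 (h4 y h5.symm)
        · exact le_of_lt (Or.inl h5)
    · right
      have ha' : r a = r x := ha
      refine ⟨a, Or.inr ⟨ha'.symm, hax⟩, ?_⟩
      rintro y ⟨hy1, hy2⟩
      rcases hy1 with h5 | ⟨h5, h5'⟩
      · rcases hy2 with h6 | ⟨h6, h6'⟩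
        · rw [ha'] at h6
          exact absurd (lttr _ _ _ h5 h6) (ltirr _)
        · rw [h6, ha'] at h5
          exact absurd h5 (ltirr _)
      · rcases hy2 with h6 | ⟨h6, h6'⟩
        · rw [← h5, ha'] at h6
          exact absurd h6 (ltirr _)
        · rw [← h5] at h6'
          exact h4 y h5.symm h6' h5'
  have hbad : ∀ x : α, Bad x → x = m (r x) := by
    intro x hx
    by_contra hxm
    obtain ⟨a, ha, haU⟩ := keyln x hxm _ hx.1
    obtain ⟨b, hb1, hb2⟩ := hx.2.2 a ha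
    exact absurd (haU ⟨hb1, hb2⟩) (not_le.2 hb2)
  have hwf : {x : α | Bad x}.IsWF := by
    have hwl : WellFounded lt := IsWellFounded.wf
    rw [Set.IsWF, Set.wellFoundedOn_iff]
    refine Subrelation.wf ?_ (InvImage.wf r hwl)
    rintro a b ⟨hab, ha, hb⟩
    rcases hab with h | ⟨h, h'⟩
    · exact h
    · exfalso
      have : a = b := by rw [hbad a ha, hbad b hb, h]
      rw [this] at h'
      exact (hlots b).lin.irr b rfl h'
  obtain ⟨h4, h5⟩ := ord_of_bad_wf hs hi hl hL hR' hwf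
  refine ⟨h4, fun y hy => h5 y (fun x => ?_)⟩
  rcases eq_or_ne x y with h6 | h6
  · rw [h6]
  · exact le_of_lt (Or.inl (hy x h6))

end Fibre

end Pool.Agent.NH82.Scat
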