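import Pool.Agent.NH82.Scat2

set_option autoImplicit false
set_option linter.unusedVariables false
set_option linter.unusedSectionVars false

open Set Filter Topology

namespace Pool.Agent.NH82.Scat

/-! ### Gluing at a point -/

section Glue

variable {Y : Type*} [TopologicalSpace Y]

def Gl {Y : Type*} (L M : Set Y) (y : Y) (R S : Y → Y → Prop) (a b : Y) : Prop :=
  (a ∈ L ∧ b ∈ L ∧ R b a) ∨ (a ∈ M ∧ b ∈ M ∧ S a b) ∨ (a ∈ L ∧ a ≠ y ∧ b ∈ M ∧ b ≠ y)

theorem gl_swap {Y : Type*} (L M : Set Y) (y : Y) (R S : Y → Y → Prop) :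
    (fun a b => Gl L M y R S b a) = Gl M L y S R := by
  funext a b
  apply propext
  unfold Gl
  tauto

structure GlH (L M : Set Y) (y : Y) (R S : Y → Y → Prop) : Prop where
  yL : y ∈ L
  yM : y ∈ M
  hR : Lots L R
  hS : Lots M S
  mR : ∀ x ∈ L, x ≠ y → R y x
  mS : ∀ x ∈ M, x ≠ y → S y x
  int : ∀ x ∈ L, x ∈ M → x = y
  cL : ∀ x ∈ L, x ≠ y → Mᶜ ∈ 𝓝 x
  cM : ∀ x ∈ M, x ≠ y → Lᶜ ∈ 𝓝 x

theorem GlH.symm {L M : Set Y} {y : Y} {R S : Y → Y → Prop} (h : GlH L M y R S) :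
    GlH M L y S R where
  yL := h.yM
  yM := h.yL
  hR := h.hS
  hS := h.hR
  mR := h.mS
  mS := h.mR
  int := fun x hx hx' => h.int x hx' hx
  cL := h.cM
  cM := h.cL

theorem GlH.notR {L M : Set Y} {y : Y} {R S : Y → Y → Prop} (h : GlH L M y R S) :
    ∀ x ∈ L, ¬ R x y := by
  intro x hx hxy
  rcases eq_or_ne x y with rfl | hne
  · exact h.hR.lin.irr x hx hxy
  · exact h.hR.lin.asymm hx h.yL hxy (h.mR x hx hne)

theorem GlH.lin {L M : Set Y} {y : Y} {R S : Y → Y → Prop} (h : GlH L M y R S) :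
    Lin (L ∪ M) (Gl L M y R S) where
  irr := by
    rintro x hx (h1 | h1 | h1)
    · exact h.hR.lin.irr x h1.1 h1.2.2
    · exact h.hS.lin.irr x h1.1 h1.2.2
    · exact h1.2.1 (h.int x h1.1 h1.2.2.1)
  tr := by
    rintro a - b - c - (⟨h1, h2, h3⟩ | ⟨h1, h2, h3⟩ | ⟨h1, h2, h3, h4⟩)
      (⟨g1, g2, g3⟩ | ⟨g1, g2, g3⟩ | ⟨g1, g2, g3, g4⟩)
    · exact Or.inl ⟨h1, g2, h.hR.lin.tr c g2 b g1 a h1 g3 h3⟩
    · have hb := h.int b h2 g1
      subst hb
      have hne : a ≠ b := by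
        rintro rfl
        exact h.hR.lin.irr a h1 h3
      have hne' : c ≠ b := by
        rintro rfl
        exact h.hS.lin.irr c g1 g3
      exact Or.inr (Or.inr ⟨h1, hne, g2, hne'⟩)
    · refine Or.inr (Or.inr ⟨h1, ?_, g3, g4⟩)
      rintro rfl
      exact h.notR b h2 h3
    · have hb := h.int b g1 h2
      subst hb
      exact absurd g3 (h.notR c g2)
    · exact Or.inr (Or.inl ⟨h1, g2, h.hS.lin.tr a h1 b h2 c g2 h3 g3⟩)
    · exact absurd (h.int b g1 h2) g2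
    · exact absurd (h.int b g1 h3) h4
    · refine Or.inr (Or.inr ⟨h1, h2, g2, ?_⟩)
      rintro rfl
      exact h.symm.notR b g1 g3
    · exact Or.inr (Or.inr ⟨h1, h2, g3, g4⟩)
  tot := by
    rintro a ha b hb hab
    rcases ha with ha | ha <;> rcases hb with hb | hb
    · rcases h.hR.lin.tot a ha b hb hab with h1 | h1
      · exact Or.inr (Or.inl ⟨hb, ha, h1⟩)
      · exact Or.inl (Or.inl ⟨ha, hb, h1⟩)
    · by_cases h1 : a = y
      · subst h1
        exact Or.inl (Or.inr (Or.inl ⟨h.yM, hb, h.mS b hb hab.symm⟩))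
      · by_cases h2 : b = y
        · subst h2
          exact Or.inl (Or.inl ⟨ha, h.yL, h.mR a ha h1⟩)
        · exact Or.inl (Or.inr (Or.inr ⟨ha, h1, hb, h2⟩))
    · by_cases h1 : a = y
      · subst h1
        exact Or.inr (Or.inl ⟨hb, h.yL, h.mR b hb hab.symm⟩)
      · by_cases h2 : b = y
        · subst h2
          exact Or.inr (Or.inr (Or.inl ⟨h.yM, ha, h.mS a ha h1⟩))
        · exact Or.inr (Or.inr (Or.inr ⟨hb, h2, ha, h1⟩))
    · rcases h.hS.lin.tot a ha b hb hab with h1 | h1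
      · exact Or.inl (Or.inr (Or.inl ⟨ha, hb, h1⟩))
      · exact Or.inr (Or.inr (Or.inl ⟨hb, ha, h1⟩))

theorem GlH.nL {L M : Set Y} {y : Y} {R S : Y → Y → Prop} (h : GlH L M y R S) {x : Y}
    (hx : x ∈ L) (hxy : x ≠ y) : L ∈ 𝓝[L ∪ M] x := by
  have h1 : Mᶜ ∈ 𝓝[L ∪ M] x := mem_nhdsWithin_of_mem_nhds (h.cL x hx hxy)
  have h2 : L ∪ M ∈ 𝓝[L ∪ M] x := self_mem_nhdsWithin
  filter_upwards [h1, h2] with z hz1 hz2
  exact hz2.resolve_right hz1

theorem GlH.up {L M : Set Y} {y : Y} {R S : Y → Y → Prop} (h : GlH L M y R S) :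
    Up (L ∪ M) (Gl L M y R S) := by
  rintro a - x - (⟨h1, h2, h3⟩ | ⟨h1, h2, h3⟩ | ⟨h1, h2, h3, h4⟩)
  · have h5 := h.hR.dn a h1 x h2 h3
    rcases eq_or_ne x y with rfl | hxy
    · rw [nhdsWithin_union, eventually_sup]
      refine ⟨?_, ?_⟩
      · filter_upwards [h5, self_mem_nhdsWithin] with z hz1 hz2
        exact Or.inl ⟨h1, hz2, hz1⟩
      · filter_upwards [self_mem_nhdsWithin] with z hz
        rcases eq_or_ne z x with rfl | hne
        · exact Or.inl ⟨h1, h2, h3⟩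
        · refine Or.inr (Or.inr ⟨h1, ?_, hz, hne⟩)
          rintro rfl
          exact h.hR.lin.irr a h1 h3
    · have h6 := h5.filter_mono (nhdsWithin_le_of_mem (h.nL h2 hxy))
      filter_upwards [h6, h.nL h2 hxy] with z hz1 hz2
      exact Or.inl ⟨h1, hz2, hz1⟩
  · have hxy : x ≠ y := by
      rintro rfl
      exact h.symm.notR a h1 h3
    have h5 := h.hS.up a h1 x h2 h3
    have h7 := h.symm.nL h2 hxy
    rw [union_comm] at h7
    have h6 := h5.filter_mono (nhdsWithin_le_of_mem h7)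
    filter_upwards [h6, h7] with z hz1 hz2
    exact Or.inr (Or.inl ⟨h1, hz2, hz1⟩)
  · have h7 := h.symm.nL h3 h4
    rw [union_comm] at h7
    have h8 : Lᶜ ∈ 𝓝[L ∪ M] x := mem_nhdsWithin_of_mem_nhds (h.cM x h3 h4)
    filter_upwards [h7, h8] with z hz1 hz2
    refine Or.inr (Or.inr ⟨h1, h2, hz1, ?_⟩)
    rintro rfl
    exact hz2 h.yL

theorem GlH.ln {L M : Set Y} {y : Y} {R S : Y → Y → Prop} (h : GlH L M y R S) :
    ∀ x ∈ L ∪ M, LN (L ∪ M) (Gl L M y R S) x := by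
  intro x hx U hU
  by_cases hxL : x ∈ L
  · have hU' : U ∈ 𝓝[L] x := nhdsWithin_mono x subset_union_left hU
    have key : ∀ a, Gl L M y R S a x → a ∈ L ∧ R x a := by
      rintro a (⟨h1, h2, h3⟩ | ⟨h1, h2, h3⟩ | ⟨h1, h2, h3, h4⟩)
      · exact ⟨h1, h3⟩
      · have := h.int x hxL h2
        subst this
        exact absurd h3 (h.symm.notR a h1)
      · exact absurd (h.int x hxL h3) h4
    rcases h.hR.rn x hxL U hU' with h1 | ⟨a, ha, hax, h1⟩
    · left
      intro a ha h2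
      exact h1 a (key a h2).1 (key a h2).2
    · right
      refine ⟨a, Or.inl ha, Or.inl ⟨ha, hxL, hax⟩, ?_⟩
      intro z hz h2 h3
      obtain ⟨hzL, hxz⟩ := key z h3
      rcases h2 with ⟨g1, g2, g3⟩ | ⟨g1, g2, g3⟩ | ⟨g1, g2, g3, g4⟩
      · exact h1 z hzL g3 hxz
      · have := h.int a ha g1
        subst this
        exact absurd hax (h.notR x hxL)
      · exact absurd (h.int z hzL g3) g4
  · have hxM : x ∈ M := hx.resolve_left hxL
    have hxy : x ≠ y := by rintro rfl; exact hxL h.yL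
    have hU' : U ∈ 𝓝[M] x := nhdsWithin_mono x subset_union_right hU
    rcases h.hS.ln x hxM U hU' with h1 | ⟨a, ha, hax, h1⟩
    · exact absurd (h.mS x hxM hxy) (h1 y h.yM)
    · right
      refine ⟨a, Or.inr ha, Or.inr (Or.inl ⟨ha, hxM, hax⟩), ?_⟩
      intro z hz h2 h3
      rcases h2 with ⟨g1, g2, g3⟩ | ⟨g1, g2, g3⟩ | ⟨g1, g2, g3, g4⟩
      · have := h.int a g1 ha
        subst this
        exact absurd g3 (h.notR z g2)
      · rcases h3 with ⟨k1, k2, k3⟩ | ⟨k1, k2, k3⟩ | ⟨k1, k2, k3, k4⟩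
        · exact absurd k2 hxL
        · exact h1 z g2 g3 k3
        · exact absurd (h.int z k1 g2) k2
      · exact absurd (h.int a g1 ha) g2

theorem GlH.lots {L M : Set Y} {y : Y} {R S : Y → Y → Prop} (h : GlH L M y R S) :
    Lots (L ∪ M) (Gl L M y R S) where
  lin := h.lin
  up := h.up
  dn := by
    rw [gl_swap, union_comm]
    exact h.symm.up
  ln := h.ln
  rn := by
    rw [gl_swap, union_comm]
    exact h.symm.ln

theorem ord_glue {L M : Set Y} {y : Y} (yL : y ∈ L) (yM : y ∈ M) (hL : OrdAt L y)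
    (hM : OrdAt M y) (hint : ∀ x ∈ L, x ∈ M → x = y) (cL : ∀ x ∈ L, x ≠ y → Mᶜ ∈ 𝓝 x)
    (cM : ∀ x ∈ M, x ≠ y → Lᶜ ∈ 𝓝 x) : Ord (L ∪ M) := by
  obtain ⟨R, hR, mR⟩ := hL
  obtain ⟨S, hS, mS⟩ := hM
  exact ⟨_, GlH.lots ⟨yL, yM, hR, hS, mR, mS, hint, cL, cM⟩⟩

end Glue

/-! ### Transfer along embeddings -/

section Transfer

variable {Z Y : Type*} [TopologicalSpace Z] [TopologicalSpace Y] {f : Z → Y}

theorem up_image (hf : IsEmbedding f) {B : Set Z} {R : Y → Y → Prop} :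
    Up (f '' B) R ↔ Up B (fun x y => R (f x) (f y)) := by
  constructor
  · intro h a ha x hx hax
    have := h (f a) ⟨a, ha, rfl⟩ (f x) ⟨x, hx, rfl⟩ hax
    rw [← hf.map_nhdsWithin_eq, eventually_map] at this
    exact this
  · rintro h _ ⟨a, ha, rfl⟩ _ ⟨x, hx, rfl⟩ hax
    rw [← hf.map_nhdsWithin_eq, eventually_map]
    exact h a ha x hx hax

theorem ln_image (hf : IsEmbedding f) {B : Set Z} {R : Y → Y → Prop} {x : Z} :
    LN (f '' B) R (f x) ↔ LN B (fun x y => R (f x) (f y)) x := by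
  constructor
  · intro h U hU
    have hU' : f '' U ∈ 𝓝[f '' B] (f x) := by
      rw [← hf.map_nhdsWithin_eq, mem_map, preimage_image_eq _ hf.injective]
      exact hU
    rcases h _ hU' with h1 | ⟨_, ⟨a, ha, rfl⟩, hax, h1⟩
    · left
      intro a ha
      exact h1 (f a) ⟨a, ha, rfl⟩
    · right
      refine ⟨a, ha, hax, fun y hy h2 h3 => ?_⟩
      obtain ⟨u, hu, hue⟩ := h1 (f y) ⟨y, hy, rfl⟩ h2 h3
      rwa [← hf.injective hue]
  · intro h U hU
    rw [← hf.map_nhdsWithin_eq, mem_map] at hU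
    rcases h _ hU with h1 | ⟨a, ha, hax, h1⟩
    · left
      rintro _ ⟨a, ha, rfl⟩
      exact h1 a ha
    · right
      refine ⟨f a, ⟨a, ha, rfl⟩, hax, ?_⟩
      rintro _ ⟨y, hy, rfl⟩ h2 h3
      exact h1 y hy h2 h3

theorem lots_image (hf : IsEmbedding f) {B : Set Z} {R : Y → Y → Prop} :
    Lots (f '' B) R ↔ Lots B (fun x y => R (f x) (f y)) := by
  constructor
  · intro h
    exact
    { lin :=
      { irr := fun x hx => h.lin.irr _ ⟨x, hx, rfl⟩
        tr := fun x hx y hy z hz => h.lin.tr _ ⟨x, hx, rfl⟩ _ ⟨y, hy, rfl⟩ _ ⟨z, hz, rfl⟩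
        tot := fun x hx y hy hxy => h.lin.tot _ ⟨x, hx, rfl⟩ _ ⟨y, hy, rfl⟩
          (fun h => hxy (hf.injective h)) }
      up := (up_image hf).1 h.up
      dn := (up_image hf (R := fun x y => R y x)).1 h.dn
      ln := fun x hx => (ln_image hf).1 (h.ln _ ⟨x, hx, rfl⟩)
      rn := fun x hx => (ln_image hf (R := fun x y => R y x)).1 (h.rn _ ⟨x, hx, rfl⟩) }
  · intro h
    exact
    { lin :=
      { irr := by
          rintro _ ⟨x, hx, rfl⟩
          exact h.lin.irr x hx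
        tr := by
          rintro _ ⟨x, hx, rfl⟩ _ ⟨y, hy, rfl⟩ _ ⟨z, hz, rfl⟩
          exact h.lin.tr x hx y hy z hz
        tot := by
          rintro _ ⟨x, hx, rfl⟩ _ ⟨y, hy, rfl⟩ hxy
          exact h.lin.tot x hx y hy (fun h => hxy (congrArg f h)) }
      up := (up_image hf).2 h.up
      dn := (up_image hf (R := fun x y => R y x)).2 h.dn
      ln := by
        rintro _ ⟨x, hx, rfl⟩
        exact (ln_image hf).2 (h.ln x hx)
      rn := by
        rintro _ ⟨x, hx, rfl⟩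
        exact (ln_image hf (R := fun x y => R y x)).2 (h.rn x hx) }

theorem pull_rel (hf : IsEmbedding f) (R : Z → Z → Prop) :
    ∃ S : Y → Y → Prop, (fun x y => S (f x) (f y)) = R := by
  refine ⟨fun u v => ∃ a b, f a = u ∧ f b = v ∧ R a b, ?_⟩
  funext x y
  apply propext
  constructor
  · rintro ⟨a, b, ha, hb, h⟩
    rwa [← hf.injective ha, ← hf.injective hb]
  · intro h
    exact ⟨x, y, rfl, rfl, h⟩

theorem ord_image (hf : IsEmbedding f) {B : Set Z} : Ord (f '' B) ↔ Ord B := by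
  constructor
  · rintro ⟨R, hR⟩
    exact ⟨_, (lots_image hf).1 hR⟩
  · rintro ⟨R, hR⟩
    obtain ⟨S, rfl⟩ := pull_rel hf R
    exact ⟨S, (lots_image hf).2 hR⟩

theorem ordAt_image (hf : IsEmbedding f) {B : Set Z} {z : Z} :
    OrdAt (f '' B) (f z) ↔ OrdAt B z := by
  constructor
  · rintro ⟨R, hR, hz⟩
    exact ⟨_, (lots_image hf).1 hR, fun x hx hxz => hz (f x) ⟨x, hx, rfl⟩
      (fun h => hxz (hf.injective h))⟩
  · rintro ⟨R, hR, hz⟩
    obtain ⟨S, rfl⟩ := pull_rel hf R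
    refine ⟨S, (lots_image hf).2 hR, ?_⟩
    rintro _ ⟨x, hx, rfl⟩ hxz
    exact hz x hx (fun h => hxz (congrArg f h))

theorem Scatt.of_embedding (hf : IsEmbedding f) (h : Scatt Y) : Scatt Z := by
  intro A hA
  obtain ⟨_, ⟨x, hx, rfl⟩, U, hU, hUA⟩ := h (f '' A) (hA.image f)
  refine ⟨x, hx, f ⁻¹' U, hU.preimage hf.continuous, ?_⟩
  ext y
  constructor
  · rintro ⟨hy, hy'⟩
    have : f y ∈ U ∩ f '' A := ⟨hy, y, hy', rfl⟩
    rw [hUA] at this
    exact hf.injective this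
  · rintro hy
    rw [mem_singleton_iff] at hy
    subst hy
    have : f y ∈ U ∩ f '' A := by rw [hUA]; rfl
    exact ⟨this.1, hx⟩

end Transfer

end Pool.Agent.NH82.Scat
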