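import Pool.Agent.NH82.Scat3

set_option autoImplicit false
set_option linter.unusedVariables false
set_option linter.unusedSectionVars false

open Set Filter Topology

namespace Pool.Agent.NH82.Scat

/-- scattered generalized ordered spaces -/
structure GOS (α : Type*) [TopologicalSpace α] [LinearOrder α] : Prop where
  iio : ∀ a : α, IsOpen (Iio a)
  ioi : ∀ a : α, IsOpen (Ioi a)
  left : ∀ x : α, ∀ U ∈ 𝓝 x, Ici x ∈ 𝓝 x ∨ ∃ a < x, Ioo a x ⊆ U
  right : ∀ x : α, ∀ U ∈ 𝓝 x, Iic x ∈ 𝓝 x ∨ ∃ b > x, Ioo x b ⊆ U
  sc : Scatt α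

variable {α : Type*} [TopologicalSpace α] [LinearOrder α]

theorem GOS.dual (h : GOS α) : GOS αᵒᵈ where
  iio := fun a => h.ioi (OrderDual.ofDual a)
  ioi := fun a => h.iio (OrderDual.ofDual a)
  left := fun x U hU => by
    rcases h.right (OrderDual.ofDual x) U hU with h1 | ⟨b, hb, h1⟩
    · exact Or.inl h1
    · exact Or.inr ⟨OrderDual.toDual b, hb, fun y hy => h1 ⟨hy.2, hy.1⟩⟩
  right := fun x U hU => by
    rcases h.left (OrderDual.ofDual x) U hU with h1 | ⟨b, hb, h1⟩
    · exact Or.inl h1
    · exact Or.inr ⟨OrderDual.toDual b, hb, fun y hy => h1 ⟨hy.2, hy.1⟩⟩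
  sc := h.sc

theorem GOS.sub_left (h : GOS α) (S : Set α) (x : S) (U : Set S) (hU : U ∈ 𝓝 x) :
    Ici x ∈ 𝓝 x ∨ ∃ a < x, Ioo a x ⊆ U := by
  rw [mem_nhds_subtype] at hU
  obtain ⟨V, hV, hVU⟩ := hU
  rcases h.left x V hV with h1 | ⟨a, ha, haV⟩
  · left
    rw [mem_nhds_subtype]
    exact ⟨_, h1, fun y hy => hy⟩
  · by_cases hex : ∃ a' : S, a ≤ a' ∧ a' < x
    · right
      obtain ⟨a', h1, h2⟩ := hex
      refine ⟨a', h2, ?_⟩
      rintro y ⟨hy1, hy2⟩
      apply hVU
      exact haV ⟨h1.trans_lt hy1, hy2⟩
    · left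
      push Not at hex
      rw [mem_nhds_subtype]
      refine ⟨Ioi a, (h.ioi a).mem_nhds ha, ?_⟩
      intro y hy
      exact hex y (le_of_lt hy)

theorem GOS.sub (h : GOS α) (S : Set α) : GOS S where
  iio := fun a => (h.iio (a : α)).preimage continuous_subtype_val
  ioi := fun a => (h.ioi (a : α)).preimage continuous_subtype_val
  left := fun x U hU => h.sub_left S x U hU
  right := fun x U hU => by
    have := h.dual.sub_left (α := αᵒᵈ) S x U hU
    rcases this with h1 | ⟨b, hb, h1⟩
    · exact Or.inl h1
    · exact Or.inr ⟨b, hb, fun y hy => h1 ⟨hy.2, hy.1⟩⟩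
  sc := Scatt.of_embedding IsEmbedding.subtypeVal h.sc

/-- A set is good when it is orderable, and orderable with its extremal points (if any) still
extremal. -/
def Good (I : Set α) : Prop :=
  Ord I ∧ (∀ z ∈ I, (∀ x ∈ I, z ≤ x) → OrdAt I z) ∧ (∀ z ∈ I, (∀ x ∈ I, x ≤ z) → OrdAt I z)

theorem Good.dual {I : Set α} (h : Good I) : Good (α := αᵒᵈ) I := ⟨h.1, h.2.2, h.2.1⟩

theorem Good.undual {I : Set α} (h : Good (α := αᵒᵈ) I) : Good I := ⟨h.1, h.2.2, h.2.1⟩

theorem exists_cofinal_wf {β : Type*} [LinearOrder β] (S : Set β) :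
    ∃ W ⊆ S, W.IsWF ∧ ∀ a ∈ S, ∃ w ∈ W, a ≤ w := by
  classical
  have wf : WellFounded (WellOrderingRel : β → β → Prop) := WellOrderingRel.isWellOrder.wf
  refine ⟨{w ∈ S | ∀ v ∈ S, WellOrderingRel v w → v < w}, fun w hw => hw.1, ?_, ?_⟩
  · rw [Set.IsWF, Set.wellFoundedOn_iff]
    refine Subrelation.wf ?_ wf
    rintro a b ⟨hab, ha, hb⟩
    rcases trichotomous_of (WellOrderingRel : β → β → Prop) a b with h1 | h1 | h1
    · exact h1
    · rw [h1] at hab; exact absurd hab (lt_irrefl _)
    · exact absurd (ha.2 b hb.1 h1) (not_lt.2 hab.le)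
  · intro a ha
    have hne : ({v ∈ S | a ≤ v}).Nonempty := ⟨a, ha, le_rfl⟩
    obtain ⟨w, ⟨hw1, hw2⟩, hw3⟩ := wf.has_min _ hne
    refine ⟨w, ⟨hw1, fun v hv hvw => ?_⟩, hw2⟩
    by_contra hcon
    rw [not_lt] at hcon
    exact hw3 v ⟨hv, hw2.trans hcon⟩ hvw

theorem iso_open (h : GOS α) {T : Set α} (hT : IsOpen T) (hne : T.Nonempty) :
    ∃ v ∈ T, IsOpen ({v} : Set α) := by
  obtain ⟨x, hx, U, hU, hUT⟩ := h.sc T hne
  exact ⟨x, hx, hUT ▸ hU.inter hT⟩

/-- The limit lemma: one more closed point at the right end. -/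
theorem limit_lemma (h : GOS α)
    (hg : ∀ J : Set α, OrdConnected J → (∃ b : α, (∃ c, b < c) ∧ J ⊆ Iic b) → Good J) :
    Ord (univ : Set α) ∧ ∀ y : α, (∀ x, x ≤ y) → OrdAt (univ : Set α) y := by
  classical
  rcases isEmpty_or_nonempty α with hα | hαne
  · refine ⟨?_, fun y => (hα.false y).elim⟩
    rw [univ_eq_empty_iff.2 hα]
    exact ord_empty
  set I₀ : Set α := {x | ∃ b, x < b} with hI₀
  by_cases hmax : ∃ y' ∈ I₀, ∀ x ∈ I₀, x ≤ y'
  · obtain ⟨y', ⟨y, hy'⟩, hmax⟩ := hmax
    have hytop : ∀ x, x ≤ y := by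
      intro x
      by_contra hcon
      rw [not_le] at hcon
      exact absurd (hmax y ⟨x, hcon⟩) (not_le.2 hy')
    have hgood : Good (Iic y') := hg _ ordConnected_Iic ⟨y', ⟨y, hy'⟩, le_rfl⟩
    have hsep : Sep ({y} : Set α) (Iic y') := by
      constructor
      · rintro x hx
        rw [mem_singleton_iff] at hx
        subst hx
        rw [compl_Iic]
        exact (h.ioi y').mem_nhds hy'
      · intro x hx
        have : x < y := lt_of_le_of_lt hx hy'
        refine mem_of_superset ((h.iio y).mem_nhds this) ?_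
        intro z hz hz'
        rw [mem_singleton_iff] at hz'
        exact absurd hz (by rw [hz']; exact lt_irrefl _)
    have hun : ({y} : Set α) ∪ Iic y' = univ := by
      rw [eq_univ_iff_forall]
      intro x
      rcases eq_or_lt_of_le (hytop x) with h1 | h1
      · exact Or.inl h1
      · exact Or.inr (hmax x ⟨y, h1⟩)
    have hat : OrdAt (univ : Set α) y := by
      rw [← hun]
      exact ordAt_union h.sc rfl (ordAt_singleton y) hgood.1 hsep
    refine ⟨hat.ord, fun x hx => ?_⟩
    have : x = y := le_antisymm (hytop x) (hx y)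
    rw [this]
    exact hat
  · push Not at hmax
    -- isolated points
    set Iso : Set α := {w | w ∈ I₀ ∧ IsOpen ({w} : Set α)} with hIso
    obtain ⟨W, hWI, hWwf, hWc⟩ := exists_cofinal_wf Iso
    have hcof : ∀ a ∈ I₀, ∃ w ∈ W, a < w := by
      intro a ha
      obtain ⟨x, hx, hax⟩ := hmax a ha
      obtain ⟨b, hb⟩ := hx
      have hne : (Ioo a b).Nonempty := ⟨x, hax, hb⟩
      have hop : IsOpen (Ioo a b) := by
        rw [← Ioi_inter_Iio]; exact (h.ioi a).inter (h.iio b)
      obtain ⟨v, hv, hvo⟩ := iso_open h hop hne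
      obtain ⟨w, hw, hvw⟩ := hWc v ⟨⟨b, hv.2⟩, hvo⟩
      exact ⟨w, hw, hv.1.trans_le hvw⟩
    have hwfW : WellFoundedLT W := ⟨by
      have := hWwf
      rw [Set.IsWF, Set.WellFoundedOn] at this
      exact this⟩
    have hwf : WellFounded ((· < ·) : W → W → Prop) := hwfW.wf
    let r : α → WithTop W := fun x =>
      if hx : ({w : W | x < w}).Nonempty then ((hwf.min _ hx : W) : WithTop W) else ⊤
    have key : ∀ x (w : W), r x ≤ (w : WithTop W) ↔ x < w := by
      intro x w
      simp only [r]
      constructor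
      · intro hle
        by_cases hx : ({w : W | x < w}).Nonempty
        · rw [dif_pos hx, WithTop.coe_le_coe] at hle
          exact lt_of_lt_of_le (hwf.min_mem _ hx) hle
        · rw [dif_neg hx] at hle
          exact absurd (top_le_iff.1 hle) (WithTop.coe_ne_top)
      · intro hlt
        have hx : ({w : W | x < w}).Nonempty := ⟨w, hlt⟩
        rw [dif_pos hx, WithTop.coe_le_coe]
        exact not_lt.1 (hwf.not_lt_min _ hlt)
    have hmono : ∀ x x', x ≤ x' → r x ≤ r x' := by
      intro x x' hxx
      cases hr : r x' with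
      | top => exact le_top
      | coe w =>
        rw [key]
        exact hxx.trans_lt ((key x' w).1 hr.le)
    have hrtop : ∀ x, r x = ⊤ → ∀ z, z ≤ x := by
      intro x hx z
      by_contra hcon
      rw [not_le] at hcon
      obtain ⟨w, hw, hxw⟩ := hcof x ⟨z, hcon⟩
      have := (key x ⟨w, hw⟩).2 hxw
      rw [hx] at this
      exact absurd (top_le_iff.1 this) (WithTop.coe_ne_top)
    have hfibg : ∀ i : WithTop W, Good {y | r y = i} := by
      intro i
      have hconv : OrdConnected {y | r y = i} := by
        refine ⟨?_⟩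
        rintro a ha b hb c ⟨hc1, hc2⟩
        have ha' : r a = i := ha
        have hb' : r b = i := hb
        exact le_antisymm ((hmono _ _ hc2).trans hb'.le) (ha'.ge.trans (hmono _ _ hc1))
      cases hi : i with
      | top =>
        by_cases hne : ∃ x, r x = ⊤
        · obtain ⟨x, hx⟩ := hne
          have hsing : {y | r y = (⊤ : WithTop W)} = {x} := by
            ext y
            constructor
            · intro hy
              exact le_antisymm (hrtop x hx y) (hrtop y hy x)
            · intro hy
              rw [mem_singleton_iff] at hy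
              subst hy
              exact hx
          rw [hsing]
          refine ⟨(ordAt_singleton x).ord, ?_, ?_⟩
          · intro z hz _
            rw [mem_singleton_iff] at hz
            subst hz
            exact ordAt_singleton z
          · intro z hz _
            rw [mem_singleton_iff] at hz
            subst hz
            exact ordAt_singleton z
        · have hempty : {y | r y = (⊤ : WithTop W)} = ∅ := by
            rw [eq_empty_iff_forall_notMem]
            intro y hy
            exact hne ⟨y, hy⟩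
          rw [hempty]
          exact ⟨ord_empty, fun z hz => absurd hz (notMem_empty z),
            fun z hz => absurd hz (notMem_empty z)⟩
      | coe w =>
        rw [hi] at hconv
        apply hg _ hconv
        refine ⟨w, (hWI w.2).1, ?_⟩
        intro y hy
        have hy' : r y = (w : WithTop W) := hy
        exact ((key y w).1 hy'.le).le
    have hch : ∀ i : WithTop W, ∃ z : α, (∃ x, r x = i) → r z = i ∧ OrdAt {y | r y = i} z ∧
        ∀ z', r z' = i → (∀ x, r x = i → z' ≤ x) → z = z' := by
      intro i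
      by_cases hi : ∃ x, r x = i
      · obtain ⟨x, hx⟩ := hi
        by_cases hm : ∃ z', r z' = i ∧ ∀ x, r x = i → z' ≤ x
        · obtain ⟨z', h1, h2⟩ := hm
          exact ⟨z', fun _ => ⟨h1, (hfibg i).2.1 z' h1 h2, fun z'' h3 h4 =>
            le_antisymm (h2 z'' h3) (h4 z' h1)⟩⟩
        · obtain ⟨m, hm1, hm2⟩ := exists_ordAt h.sc (A := {y | r y = i}) ⟨x, hx⟩ (hfibg i).1
          exact ⟨m, fun _ => ⟨hm1, hm2, fun z' h3 h4 => absurd ⟨z', h3, h4⟩ hm⟩⟩
      · exact ⟨Classical.choice hαne, fun h => absurd h hi⟩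
    choose m hm using hch
    have hm1 : ∀ x, r (m (r x)) = r x := fun x => (hm (r x) ⟨x, rfl⟩).1
    have hm2 : ∀ x, OrdAt {y | r y = r x} (m (r x)) := fun x => (hm (r x) ⟨x, rfl⟩).2.1
    have hm3 : ∀ x, (∀ z, r z = r x → x ≤ z) → m (r x) = x := fun x hx =>
      (hm (r x) ⟨x, rfl⟩).2.2 x rfl hx
    have hle_open : ∀ i : WithTop W, IsOpen {x | ¬ i < r x} := by
      intro i
      cases i with
      | top =>
        have : {x | ¬ (⊤ : WithTop W) < r x} = univ := by
          rw [eq_univ_iff_forall]
          intro x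
          exact not_top_lt
        rw [this]
        exact isOpen_univ
      | coe w =>
        have : {x | ¬ (w : WithTop W) < r x} = Iio (w : α) := by
          ext x
          exact not_lt.trans (key x w)
        rw [this]
        exact h.iio _
    have hfib_nhds : ∀ x x', x' < x → r x' = r x → {y | r y = r x} ∈ 𝓝 x := by
      intro x x' hx'x hrx
      filter_upwards [(h.ioi x').mem_nhds hx'x, (hle_open (r x)).mem_nhds (lt_irrefl _)]
        with y hy1 hy2
      exact le_antisymm (not_lt.1 hy2) (hrx ▸ hmono _ _ (le_of_lt hy1))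
    have hT1 : ∀ x, x ≠ m (r x) → {y | r y = r x} ∈ 𝓝 x := by
      intro x hx
      have : ¬ ∀ z, r z = r x → x ≤ z := fun h => hx (hm3 x h).symm
      push Not at this
      obtain ⟨z, hz1, hz2⟩ := this
      exact hfib_nhds x z hz2 hz1
    have hT3 : ∀ x, x = m (r x) → {y | r y = r x} ∈ 𝓝 x ∨
        ∀ U ∈ 𝓝 x, ∃ a, r a < r x ∧ ∀ y, r a < r y → r y < r x → y ∈ U := by
      intro x hx
      by_cases hmin : ∀ z, r z = r x → x ≤ z
      · by_cases hci : Ici x ∈ 𝓝 x
        · left
          filter_upwards [hci, (hle_open (r x)).mem_nhds (lt_irrefl _)] with y hy1 hy2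
          exact le_antisymm (not_lt.1 hy2) (hmono _ _ hy1)
        · right
          intro U hU
          rcases h.left x U hU with h1 | ⟨a, ha, haU⟩
          · exact absurd h1 hci
          · refine ⟨a, lt_of_le_of_ne (hmono _ _ ha.le) ?_, ?_⟩
            · intro heq
              exact absurd ha (not_lt.2 (hmin a heq))
            · intro y hy1 hy2
              apply haU
              constructor
              · by_contra hcon
                rw [not_lt] at hcon
                exact absurd hy1 (not_lt.2 (hmono _ _ hcon))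
              · by_contra hcon
                rw [not_lt] at hcon
                exact absurd hy2 (not_lt.2 (hmono _ _ hcon))
      · left
        push Not at hmin
        obtain ⟨z, hz1, hz2⟩ := hmin
        exact hfib_nhds x z hz2 hz1
    have h1 : ∀ i : WithTop W, IsOpen {x | r x < i} := by
      intro i
      have : {x | r x < i} = ⋃ (w : W) (_ : (w : WithTop W) < i), Iio (w : α) := by
        ext x
        simp only [mem_iUnion, mem_Iio, exists_prop]
        constructor
        · intro hx
          have hx' : r x < i := hx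
          cases hr : r x with
          | top => rw [hr] at hx'; exact absurd hx' not_top_lt
          | coe w =>
            rw [hr] at hx'
            exact ⟨w, hx', (key x w).1 hr.le⟩
        · rintro ⟨w, hw1, hw2⟩
          exact lt_of_le_of_lt ((key x w).2 hw2) hw1
      rw [this]
      exact isOpen_iUnion (fun w => isOpen_iUnion (fun _ => h.iio _))
    have h2 : ∀ i : WithTop W, IsOpen {x | i < r x} := by
      intro i
      cases i with
      | top =>
        have : {x | (⊤ : WithTop W) < r x} = ∅ := by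
          rw [eq_empty_iff_forall_notMem]
          intro x hx
          exact not_top_lt (show (⊤ : WithTop W) < r x from hx)
        rw [this]
        exact isOpen_empty
      | coe w =>
        have : {x | (w : WithTop W) < r x} = {(w : α)} ∪ Ioi (w : α) := by
          ext x
          have h5 : x ∈ {x | (w : WithTop W) < r x} ↔ (w : α) ≤ x := by
            rw [← not_lt, ← key x w, not_le]
            rfl
          rw [h5, le_iff_eq_or_lt, eq_comm]
          rfl
        rw [this]
        exact (hWI w.2).2.union (h.ioi _)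
    obtain ⟨h5, h6⟩ := ord_of_fibres h.sc (fun i j : WithTop W => i < j) r m hm1 hm2 h1 h2
      hle_open hT1 hT3
    refine ⟨h5, fun y hy => h6 y (fun x hxy => ?_)⟩
    have hxI : x ∈ I₀ := ⟨y, lt_of_le_of_ne (hy x) hxy⟩
    obtain ⟨w, hw, hxw⟩ := hcof x hxI
    have hry : r y = ⊤ := by
      cases hr : r y with
      | top => rfl
      | coe w' =>
        have := (key y w').1 hr.le
        exact absurd this (not_lt.2 (hy _))
    rw [hry]
    exact lt_of_le_of_lt ((key x ⟨w, hw⟩).2 hxw) (WithTop.coe_lt_top _)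

end Pool.Agent.NH82.Scat
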