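import Pool.Agent.NH82.Scat4

set_option autoImplicit false
set_option linter.unusedVariables false
set_option linter.unusedSectionVars false

open Set Filter Topology

namespace Pool.Agent.NH82.Scat

variable {α : Type*} [TopologicalSpace α] [LinearOrder α]

/-- transfer of goodness from an order convex set to its subtype -/
theorem good_of_image {I : Set α} {J : Set I} (h : Good (Subtype.val '' J)) : Good J := by
  have hf : IsEmbedding (Subtype.val : I → α) := IsEmbedding.subtypeVal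
  refine ⟨(ord_image hf).1 h.1, fun z hz hmin => ?_, fun z hz hmax => ?_⟩
  · refine (ordAt_image hf).1 (h.2.1 _ ⟨z, hz, rfl⟩ ?_)
    rintro _ ⟨x, hx, rfl⟩
    exact hmin x hx
  · refine (ordAt_image hf).1 (h.2.2 _ ⟨z, hz, rfl⟩ ?_)
    rintro _ ⟨x, hx, rfl⟩
    exact hmax x hx

theorem ordConnected_image {I : Set α} (hI : OrdConnected I) {J : Set I} (hJ : OrdConnected J) :
    OrdConnected (Subtype.val '' J) := by
  refine ⟨?_⟩
  rintro _ ⟨a, ha, rfl⟩ _ ⟨b, hb, rfl⟩ c ⟨hc1, hc2⟩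
  have hcI : c ∈ I := hI.out a.2 b.2 ⟨hc1, hc2⟩
  exact ⟨⟨c, hcI⟩, hJ.out ha hb ⟨hc1, hc2⟩, rfl⟩

theorem limit_set (h : GOS α) {I : Set α} (hI : OrdConnected I)
    (hg : ∀ J ⊆ I, OrdConnected J → (∃ b ∈ I, (∃ c ∈ I, b < c) ∧ J ⊆ Iic b) → Good J) :
    Ord I ∧ ∀ y ∈ I, (∀ x ∈ I, x ≤ y) → OrdAt I y := by
  have hf : IsEmbedding (Subtype.val : I → α) := IsEmbedding.subtypeVal
  have him : Subtype.val '' (univ : Set I) = I := by rw [image_univ, Subtype.range_coe]
  obtain ⟨h1, h2⟩ := limit_lemma (h.sub I) (by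
    rintro J hJ ⟨b, ⟨c, hbc⟩, hJb⟩
    apply good_of_image
    apply hg
    · rintro _ ⟨x, hx, rfl⟩
      exact x.2
    · exact ordConnected_image hI hJ
    · refine ⟨b, b.2, ⟨c, c.2, hbc⟩, ?_⟩
      rintro _ ⟨x, hx, rfl⟩
      exact hJb hx)
  constructor
  · have := (ord_image hf).2 h1
    rwa [him] at this
  · intro y hy hmax
    have := (ordAt_image hf).2 (h2 ⟨y, hy⟩ (fun x => hmax x x.2))
    rwa [him] at this

theorem limit_set' (h : GOS α) {I : Set α} (hI : OrdConnected I)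
    (hg : ∀ J ⊆ I, OrdConnected J → (∃ b ∈ I, (∃ c ∈ I, c < b) ∧ J ⊆ Ici b) → Good J) :
    Ord I ∧ ∀ y ∈ I, (∀ x ∈ I, y ≤ x) → OrdAt I y := by
  refine limit_set (α := αᵒᵈ) h.dual (I := I) hI.dual ?_
  intro J hJI hJ hb
  exact (hg J hJI hJ.dual hb).dual

/-- hereditarily good set -/
def HG (V : Set α) : Prop := ∀ J ⊆ V, OrdConnected J → Good J

theorem HG.dual {V : Set α} (h : HG V) : HG (α := αᵒᵈ) V := fun J hJ hc => (h J hJ hc.dual).dual

theorem good_split (h : GOS α) {J : Set α} {v : α} (hv : v ∈ J)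
    (hiso : {v} ∈ 𝓝[J] v) (h1 : Good (J ∩ Iio v)) (h2 : Good (J ∩ Ici v)) : Good J := by
  have hun : (J ∩ Iio v) ∪ (J ∩ Ici v) = J := by
    rw [← inter_union_distrib_left, Iio_union_Ici, inter_univ]
  have hsep : Sep (J ∩ Iio v) (J ∩ Ici v) := by
    constructor
    · rintro x ⟨hx, hxv⟩
      refine mem_of_superset ((h.iio v).mem_nhds hxv) ?_
      intro z hz hz'
      exact absurd hz (not_lt.2 hz'.2)
    · rintro x ⟨hx, hxv⟩
      rcases eq_or_lt_of_le (mem_Ici.1 hxv) with h3 | h3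
      · subst h3
        rw [mem_nhdsWithin] at hiso
        obtain ⟨O, hO, hvO, hOJ⟩ := hiso
        refine mem_of_superset (hO.mem_nhds hvO) ?_
        intro z hz hz'
        have := hOJ ⟨hz, hz'.1⟩
        rw [mem_singleton_iff] at this
        exact absurd hz'.2 (by rw [this]; exact lt_irrefl _)
      · refine mem_of_superset ((h.ioi v).mem_nhds h3) ?_
        intro z hz hz'
        exact absurd hz (not_lt.2 (le_of_lt hz'.2))
  refine ⟨?_, fun z hz hmin => ?_, fun z hz hmax => ?_⟩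
  · rw [← hun]
    exact ord_union h.sc h1.1 h2.1 hsep
  · rcases eq_or_lt_of_le (hmin v hv) with h3 | h3
    · have hJ : J ∩ Ici v = J := by
        apply inter_eq_left.2
        intro x hx
        rw [← h3]
        exact hmin x hx
      have := h2.2.1 z (by rw [hJ]; exact hz) (fun x hx => hmin x hx.1)
      rwa [hJ] at this
    · rw [← hun]
      exact ordAt_union h.sc ⟨hz, h3⟩ (h1.2.1 z ⟨hz, h3⟩ (fun x hx => hmin x hx.1)) h2.1 hsep
  · have h3 : v ≤ z := hmax v hv
    rw [← hun, union_comm]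
    exact ordAt_union h.sc ⟨hz, h3⟩ (h2.2.2 z ⟨hz, h3⟩ (fun x hx => hmax x hx.1)) h1.1 hsep.symm

theorem iso_within (h : GOS α) {J T : Set α} (hTJ : ∃ O, IsOpen O ∧ T = J ∩ O)
    (hne : T.Nonempty) : ∃ v ∈ T, {v} ∈ 𝓝[J] v := by
  obtain ⟨O, hO, rfl⟩ := hTJ
  obtain ⟨v, hv, hiso⟩ := exists_iso h.sc hne
  refine ⟨v, hv, ?_⟩
  have : J ∩ O ∈ 𝓝[J] v := inter_mem self_mem_nhdsWithin
    (mem_nhdsWithin_of_mem_nhds (hO.mem_nhds hv.2))
  exact nhdsWithin_le_of_mem this hiso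

theorem hg_union_aux (h : GOS α) {V₁ V₂ J : Set α} (o₁ : IsOpen V₁) (o₂ : IsOpen V₂)
    (c₁ : OrdConnected V₁) (c₂ : OrdConnected V₂) (g₁ : HG V₁) (g₂ : HG V₂)
    {c : α} (hc₁ : c ∈ V₁) (hc₂ : c ∈ V₂) (hJ : J ⊆ V₁ ∪ V₂) (hJc : OrdConnected J)
    {a b : α} (ha : a ∈ J) (ha₂ : a ∉ V₂) (hb : b ∈ J) (hb₁ : b ∉ V₁) (hab : a < b) :
    Good J := by
  have ha₁ : a ∈ V₁ := (hJ ha).resolve_right ha₂
  have hb₂ : b ∈ V₂ := (hJ hb).resolve_left hb₁
  have key : ∀ c, c ∈ V₁ → c ∈ V₂ → a < c ∧ c < b := by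
    intro c h1 h2
    constructor
    · by_contra hcon
      rw [not_lt] at hcon
      exact ha₂ (c₂.out h2 hb₂ ⟨hcon, hab.le⟩)
    · by_contra hcon
      rw [not_lt] at hcon
      exact hb₁ (c₁.out ha₁ h1 ⟨hab.le, hcon⟩)
  have hcJ : c ∈ J := hJc.out ha hb ⟨(key c hc₁ hc₂).1.le, (key c hc₁ hc₂).2.le⟩
  obtain ⟨v, ⟨hvJ, hv₁, hv₂⟩, hiso⟩ := iso_within h (J := J) (T := J ∩ (V₁ ∩ V₂))
    ⟨_, o₁.inter o₂, rfl⟩ ⟨c, hcJ, hc₁, hc₂⟩
  have hv := key v hv₁ hv₂
  refine good_split h hvJ hiso ?_ ?_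
  · apply g₁
    · rintro x ⟨hxJ, hxv⟩
      rcases hJ hxJ with hx | hx
      · exact hx
      · have hax : a < x := by
          by_contra hcon
          rw [not_lt] at hcon
          exact ha₂ (c₂.out hx hv₂ ⟨hcon, hv.1.le⟩)
        exact c₁.out ha₁ hv₁ ⟨hax.le, le_of_lt hxv⟩
    · exact hJc.inter ordConnected_Iio
  · apply g₂
    · rintro x ⟨hxJ, hxv⟩
      rcases hJ hxJ with hx | hx
      · have hxb : x < b := by
          by_contra hcon
          rw [not_lt] at hcon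
          exact hb₁ (c₁.out hv₁ hx ⟨hv.2.le, hcon⟩)
        exact c₂.out hv₂ hb₂ ⟨hxv, hxb.le⟩
      · exact hx
    · exact hJc.inter ordConnected_Ici

theorem hg_union (h : GOS α) {V₁ V₂ : Set α} (o₁ : IsOpen V₁) (o₂ : IsOpen V₂)
    (c₁ : OrdConnected V₁) (c₂ : OrdConnected V₂) (g₁ : HG V₁) (g₂ : HG V₂)
    {c : α} (hc₁ : c ∈ V₁) (hc₂ : c ∈ V₂) : HG (V₁ ∪ V₂) := by
  intro J hJ hJc
  by_cases h1 : J ⊆ V₁
  · exact g₁ J h1 hJc
  by_cases h2 : J ⊆ V₂
  · exact g₂ J h2 hJc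
  rw [not_subset] at h1 h2
  obtain ⟨b, hb, hb₁⟩ := h1
  obtain ⟨a, ha, ha₂⟩ := h2
  have hne : a ≠ b := by
    rintro rfl
    exact (hJ ha).elim hb₁ ha₂
  rcases lt_or_gt_of_ne hne with hlt | hlt
  · exact hg_union_aux h o₁ o₂ c₁ c₂ g₁ g₂ hc₁ hc₂ hJ hJc ha ha₂ hb hb₁ hlt
  · rw [union_comm] at hJ
    exact hg_union_aux h o₂ o₁ c₂ c₁ g₂ g₁ hc₂ hc₁ hJ hJc hb hb₁ ha ha₂ hlt

theorem oc_union {V₁ V₂ : Set α} (c₁ : OrdConnected V₁) (c₂ : OrdConnected V₂) {c : α}
    (hc₁ : c ∈ V₁) (hc₂ : c ∈ V₂) : OrdConnected (V₁ ∪ V₂) := by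
  refine ⟨?_⟩
  rintro a (ha | ha) b (hb | hb) x ⟨h1, h2⟩
  · exact Or.inl (c₁.out ha hb ⟨h1, h2⟩)
  · rcases le_total x c with h3 | h3
    · exact Or.inl (c₁.out ha hc₁ ⟨h1, h3⟩)
    · exact Or.inr (c₂.out hc₂ hb ⟨h3, h2⟩)
  · rcases le_total x c with h3 | h3
    · exact Or.inr (c₂.out ha hc₂ ⟨h1, h3⟩)
    · exact Or.inl (c₁.out hc₁ hb ⟨h3, h2⟩)
  · exact Or.inr (c₂.out ha hb ⟨h1, h2⟩)

/-- sums of orderable clopen pieces -/
theorem ord_sum {Y : Type*} [TopologicalSpace Y] (hs : Scatt Y) {ι : Type*} (r : Y → ι)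
    (ho : ∀ x, IsOpen {y | r y = r x}) (hO : ∀ x, Ord {y | r y = r x}) :
    Ord (univ : Set Y) := by
  classical
  rcases isEmpty_or_nonempty Y with hY | hY
  · rw [univ_eq_empty_iff.2 hY]
    exact ord_empty
  have hop : ∀ p : ι → Prop, IsOpen {x | p (r x)} := by
    intro p
    rw [isOpen_iff_mem_nhds]
    intro x hx
    refine mem_of_superset ((ho x).mem_nhds rfl) ?_
    intro y hy
    have hy' : r y = r x := hy
    show p (r y)
    rw [hy']
    exact hx
  have hch : ∀ i : ι, ∃ z : Y, (∃ x, r x = i) → r z = i ∧ OrdAt {y | r y = i} z := by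
    intro i
    by_cases hi : ∃ x, r x = i
    · obtain ⟨x, rfl⟩ := hi
      obtain ⟨m, hm1, hm2⟩ := exists_ordAt hs (A := {y | r y = r x}) ⟨x, rfl⟩ (hO x)
      exact ⟨m, fun _ => ⟨hm1, hm2⟩⟩
    · exact ⟨Classical.choice hY, fun h => absurd h hi⟩
  choose m hm using hch
  exact (ord_of_fibres hs (WellOrderingRel : ι → ι → Prop) r m (fun x => (hm (r x) ⟨x, rfl⟩).1)
    (fun x => (hm (r x) ⟨x, rfl⟩).2) (fun i => hop (fun j => WellOrderingRel j i))
    (fun i => hop (fun j => WellOrderingRel i j))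
    (fun i => hop (fun j => ¬ WellOrderingRel i j))
    (fun x _ => (ho x).mem_nhds rfl) (fun x _ => Or.inl ((ho x).mem_nhds rfl))).1

/-- two points in a common hereditarily good open convex set -/
def Rel (x y : α) : Prop := ∃ V : Set α, IsOpen V ∧ OrdConnected V ∧ HG V ∧ x ∈ V ∧ y ∈ V

theorem Rel.symm {x y : α} (h : Rel x y) : Rel y x := by
  obtain ⟨V, h1, h2, h3, h4, h5⟩ := h
  exact ⟨V, h1, h2, h3, h5, h4⟩

theorem Rel.trans (h : GOS α) {x y z : α} (h1 : Rel x y) (h2 : Rel y z) : Rel x z := by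
  obtain ⟨V, o, c, g, hx, hy⟩ := h1
  obtain ⟨V', o', c', g', hy', hz⟩ := h2
  exact ⟨V ∪ V', o.union o', oc_union c c' hy hy', hg_union h o o' c c' g g' hy hy',
    Or.inl hx, Or.inr hz⟩

theorem rel_open (x : α) : IsOpen {y | Rel x y} := by
  rw [isOpen_iff_mem_nhds]
  rintro y ⟨V, o, c, g, hx, hy⟩
  exact mem_of_superset (o.mem_nhds hy) (fun z hz => ⟨V, o, c, g, hx, hz⟩)

theorem rel_conv (h : GOS α) (x : α) : OrdConnected {y | Rel x y} := by
  refine ⟨?_⟩
  intro a ha b hb c hc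
  have hab : Rel a b := Rel.trans h (Rel.symm ha) hb
  obtain ⟨V, o, co, g, ha', hb'⟩ := hab
  exact Rel.trans h ha ⟨V, o, co, g, ha', co.out ha' hb' hc⟩

theorem rel_good (h : GOS α) {x a b : α} (ha : Rel x a) (hb : Rel x b) {J : Set α}
    (hJ : J ⊆ Icc a b) (hJc : OrdConnected J) : Good J := by
  obtain ⟨V, o, co, g, ha', hb'⟩ := Rel.trans h (Rel.symm ha) hb
  exact g J (fun y hy => co.out ha' hb' (hJ hy)) hJc

theorem rel_right (h : GOS α) {x w : α} (hw : Rel x w) : Ord ({y | Rel x y} ∩ Ici w) := by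
  refine (limit_set h ((rel_conv h x).inter ordConnected_Ici) ?_).1
  rintro J hJ hJc ⟨b, ⟨hb, hwb⟩, _, hJb⟩
  exact rel_good h hw hb (fun y hy => ⟨(hJ hy).2, hJb hy⟩) hJc

theorem rel_left (h : GOS α) {x w : α} (hw : Rel x w) : Ord ({y | Rel x y} ∩ Iio w) := by
  refine (limit_set' h ((rel_conv h x).inter ordConnected_Iio) ?_).1
  rintro J hJ hJc ⟨b, ⟨hb, hwb⟩, _, hJb⟩
  exact rel_good h hb hw (fun y hy => ⟨hJb hy, le_of_lt (hJ hy).2⟩) hJc

theorem sep_split (h : GOS α) {J : Set α} {v : α} (hv : v ∈ J)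
    (hiso : {v} ∈ 𝓝[J] v) : Sep (J ∩ Iio v) (J ∩ Ici v) := by
  constructor
  · rintro x ⟨hx, hxv⟩
    refine mem_of_superset ((h.iio v).mem_nhds hxv) ?_
    intro z hz hz'
    exact absurd hz (not_lt.2 hz'.2)
  · rintro x ⟨hx, hxv⟩
    rcases eq_or_lt_of_le (mem_Ici.1 hxv) with h3 | h3
    · subst h3
      rw [mem_nhdsWithin] at hiso
      obtain ⟨O, hO, hvO, hOJ⟩ := hiso
      refine mem_of_superset (hO.mem_nhds hvO) ?_
      intro z hz hz'
      have := hOJ ⟨hz, hz'.1⟩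
      rw [mem_singleton_iff] at this
      exact absurd hz'.2 (by rw [this]; exact lt_irrefl _)
    · refine mem_of_superset ((h.ioi v).mem_nhds h3) ?_
      intro z hz hz'
      exact absurd hz (not_lt.2 (le_of_lt hz'.2))

theorem inter_split (J : Set α) (v : α) : (J ∩ Iio v) ∪ (J ∩ Ici v) = J := by
  rw [← inter_union_distrib_left, Iio_union_Ici, inter_univ]

theorem theoremG_half (h : GOS α) (hl : ∀ x : α, ∃ V, IsOpen V ∧ OrdConnected V ∧ x ∈ V ∧ HG V) :
    Ord (univ : Set α) ∧ ∀ z : α, (∀ x, z ≤ x) → OrdAt (univ : Set α) z := by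
  classical
  have hrefl : ∀ x : α, Rel x x := by
    intro x
    obtain ⟨V, o, c, hx, g⟩ := hl x
    exact ⟨V, o, c, g, hx, hx⟩
  have hclass : ∀ x y : α, Rel x y → {t | Rel x t} = {t | Rel y t} := by
    intro x y hxy
    ext t
    exact ⟨fun ht => Rel.trans h (Rel.symm hxy) ht, fun ht => Rel.trans h hxy ht⟩
  have hrr : ∀ x y : α, {t | Rel y t} = {t | Rel x t} ↔ Rel x y := by
    intro x y
    constructor
    · intro h1
      have : y ∈ {t | Rel y t} := hrefl y
      rw [h1] at this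
      exact this
    · intro h1
      exact (hclass x y h1).symm
  have hordK : ∀ x : α, Ord {y | Rel x y} := by
    intro x
    obtain ⟨w, hw, hiso⟩ := exists_iso h.sc (A := {y | Rel x y}) ⟨x, hrefl x⟩
    rw [← inter_split {y | Rel x y} w]
    exact ord_union h.sc (rel_left h hw) (rel_right h hw) (sep_split h hw hiso)
  have hsumS : ∀ S : Set α, (∀ x ∈ S, {y | Rel x y} ⊆ S) → Ord S := by
    intro S hS
    have hf : IsEmbedding (Subtype.val : S → α) := IsEmbedding.subtypeVal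
    have him : Subtype.val '' (univ : Set S) = S := by rw [image_univ, Subtype.range_coe]
    rw [← him, ord_image hf]
    have hfib : ∀ x : S, {y : S | {t | Rel (y : α) t} = {t | Rel (x : α) t}} =
        Subtype.val ⁻¹' {y | Rel (x : α) y} := by
      intro x
      ext y
      exact hrr x y
    apply ord_sum (h.sub S).sc (fun x : S => {t | Rel (x : α) t})
    · intro x
      rw [hfib x]
      exact (rel_open (x : α)).preimage continuous_subtype_val
    · intro x
      rw [hfib x, ← ord_image hf, image_preimage_eq_inter_range, Subtype.range_coe,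
        inter_eq_left.2 (hS x x.2)]
      exact hordK x
  refine ⟨hsumS univ (fun x _ => subset_univ _), ?_⟩
  intro z hz
  -- the class of `z`
  have hzK : OrdAt {y | Rel z y} z := by
    by_cases hsing : {y | Rel z y} = {z}
    · rw [hsing]
      exact ordAt_singleton z
    · have hne : ({y | Rel z y} ∩ Ioi z).Nonempty := by
        by_contra hcon
        rw [not_nonempty_iff_eq_empty] at hcon
        apply hsing
        ext y
        constructor
        · intro hy
          rcases eq_or_lt_of_le (hz y) with h1 | h1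
          · exact h1.symm
          · have : y ∈ ({y | Rel z y} ∩ Ioi z) := ⟨hy, h1⟩
            rw [hcon] at this
            exact absurd this (notMem_empty y)
        · intro hy
          rw [mem_singleton_iff] at hy
          rw [hy]
          exact hrefl z
      obtain ⟨w, ⟨hw, hzw⟩, hiso⟩ := iso_within h (J := {y | Rel z y})
        (T := {y | Rel z y} ∩ Ioi z) ⟨_, h.ioi z, rfl⟩ hne
      rw [← inter_split {y | Rel z y} w]
      refine ordAt_union h.sc ⟨hrefl z, hzw⟩ ?_ (rel_right h hw) (sep_split h hw hiso)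
      have hgd : Good ({y | Rel z y} ∩ Iio w) :=
        rel_good h (hrefl z) hw (fun y hy => ⟨hz y, le_of_lt hy.2⟩)
          ((rel_conv h z).inter ordConnected_Iio)
      exact hgd.2.1 z ⟨hrefl z, hzw⟩ (fun x _ => hz x)
  have hrest : Ord ({y | Rel z y}ᶜ) := by
    apply hsumS
    intro x hx y hxy hzy
    exact hx (Rel.trans h hzy (Rel.symm hxy))
  have hsep : Sep {y | Rel z y} ({y | Rel z y}ᶜ) := by
    constructor
    · intro x hx
      rw [compl_compl]
      exact (rel_open z).mem_nhds hx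
    · intro x hx
      refine mem_of_superset ((rel_open x).mem_nhds (hrefl x)) ?_
      intro y hxy hzy
      exact hx (Rel.trans h hzy (Rel.symm hxy))
  rw [← union_compl_self {y | Rel z y}]
  exact ordAt_union h.sc (hrefl z) hzK hrest hsep

theorem theoremG (h : GOS α) (hl : ∀ x : α, ∃ V, IsOpen V ∧ OrdConnected V ∧ x ∈ V ∧ HG V) :
    Good (univ : Set α) := by
  obtain ⟨h1, h2⟩ := theoremG_half h hl
  obtain ⟨h3, h4⟩ := theoremG_half (α := αᵒᵈ) h.dual (fun x => by
    obtain ⟨V, o, c, hx, g⟩ := hl x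
    exact ⟨V, o, c.dual, hx, g.dual⟩)
  exact ⟨h1, fun z _ hz => h2 z (fun x => hz x (mem_univ _)),
    fun z _ hz => h4 z (fun x => hz x (mem_univ _))⟩

theorem theoremG_set (h : GOS α) {I : Set α} (hI : OrdConnected I)
    (hl : ∀ x ∈ I, ∃ V, IsOpen V ∧ OrdConnected V ∧ x ∈ V ∧ HG V) : Good I := by
  have hf : IsEmbedding (Subtype.val : I → α) := IsEmbedding.subtypeVal
  have him : Subtype.val '' (univ : Set I) = I := by rw [image_univ, Subtype.range_coe]
  have key := theoremG (h.sub I) (by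
    intro x
    obtain ⟨V, o, c, hx, g⟩ := hl x x.2
    refine ⟨Subtype.val ⁻¹' V, o.preimage continuous_subtype_val, ?_, hx, ?_⟩
    · refine ⟨?_⟩
      intro a ha b hb t ht
      exact c.out ha hb ht
    · intro J hJ hJc
      apply good_of_image
      apply g
      · rintro _ ⟨y, hy, rfl⟩
        exact hJ hy
      · exact ordConnected_image hI hJc)
  obtain ⟨h1, h2, h3⟩ := key
  refine ⟨?_, fun z hz hmin => ?_, fun z hz hmax => ?_⟩
  · have := (ord_image hf).2 h1
    rwa [him] at this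
  · have := (ordAt_image hf).2 (h2 ⟨z, hz⟩ (mem_univ _) (fun x _ => hmin x x.2))
    rwa [him] at this
  · have := (ordAt_image hf).2 (h3 ⟨z, hz⟩ (mem_univ _) (fun x _ => hmax x x.2))
    rwa [him] at this

/-- a convex open neighbourhood inside a given one -/
theorem exists_convex_nhd (h : GOS α) {x : α} {U : Set α} (hU : IsOpen U) (hx : x ∈ U) :
    ∃ V ⊆ U, IsOpen V ∧ OrdConnected V ∧ x ∈ V := by
  -- left and right parts
  have hl : ∃ L : Set α, L ∈ 𝓝 x ∧ OrdConnected L ∧ (∀ y ∈ L, y < x → y ∈ U) ∧ IsOpen L := by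
    rcases h.left x U (hU.mem_nhds hx) with h1 | ⟨a, ha, haU⟩
    · refine ⟨Ici x, h1, ordConnected_Ici, fun y hy hyx => absurd hyx (not_lt.2 hy), ?_⟩
      rw [isOpen_iff_mem_nhds]
      intro y hy
      rcases eq_or_lt_of_le (mem_Ici.1 hy) with h2 | h2
      · rw [← h2]; exact h1
      · exact mem_of_superset ((h.ioi x).mem_nhds h2) Ioi_subset_Ici_self
    · exact ⟨Ioi a, (h.ioi a).mem_nhds ha, ordConnected_Ioi, fun y hy hyx => haU ⟨hy, hyx⟩,
        h.ioi a⟩
  have hr : ∃ L : Set α, L ∈ 𝓝 x ∧ OrdConnected L ∧ (∀ y ∈ L, x < y → y ∈ U) ∧ IsOpen L := by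
    rcases h.right x U (hU.mem_nhds hx) with h1 | ⟨a, ha, haU⟩
    · refine ⟨Iic x, h1, ordConnected_Iic, fun y hy hyx => absurd hyx (not_lt.2 hy), ?_⟩
      rw [isOpen_iff_mem_nhds]
      intro y hy
      rcases eq_or_lt_of_le (mem_Iic.1 hy) with h2 | h2
      · rw [h2]; exact h1
      · exact mem_of_superset ((h.iio x).mem_nhds h2) Iio_subset_Iic_self
    · exact ⟨Iio a, (h.iio a).mem_nhds ha, ordConnected_Iio, fun y hy hyx => haU ⟨hyx, hy⟩,
        h.iio a⟩
  obtain ⟨L, hL1, hL2, hL3, hL4⟩ := hl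
  obtain ⟨R, hR1, hR2, hR3, hR4⟩ := hr
  refine ⟨L ∩ R, ?_, hL4.inter hR4, hL2.inter hR2, mem_of_mem_nhds hL1, mem_of_mem_nhds hR1⟩
  rintro y ⟨hy1, hy2⟩
  rcases lt_trichotomy y x with h1 | h1 | h1
  · exact hL3 y hy1 h1
  · rw [h1]; exact hx
  · exact hR3 y hy2 h1

/-- step at the bad point: order convex sets around `y` are orderable -/
theorem ord_around (h : GOS α) {y : α} {I : Set α} (hI : OrdConnected I) (hy : y ∈ I)
    (hg : ∀ J ⊆ I, OrdConnected J → y ∉ J → Good J) :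
    Ord I ∧ ((∀ x ∈ I, x ≤ y) → OrdAt I y) ∧ ((∀ x ∈ I, y ≤ x) → OrdAt I y) := by
  have h1 : OrdAt (I ∩ Iic y) y := by
    refine (limit_set h (hI.inter ordConnected_Iic) ?_).2 y ⟨hy, le_rfl⟩ (fun x hx => hx.2)
    rintro J hJ hJc ⟨b, ⟨hb, hby⟩, ⟨c, ⟨hc, hcy⟩, hbc⟩, hJb⟩
    refine hg J (fun x hx => (hJ hx).1) hJc (fun hyJ => ?_)
    exact absurd (hJb hyJ) (not_le.2 (hbc.trans_le hcy))
  have h2 : OrdAt (I ∩ Ici y) y := by
    refine (limit_set' h (hI.inter ordConnected_Ici) ?_).2 y ⟨hy, le_rfl⟩ (fun x hx => hx.2)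
    rintro J hJ hJc ⟨b, ⟨hb, hby⟩, ⟨c, ⟨hc, hcy⟩, hbc⟩, hJb⟩
    refine hg J (fun x hx => (hJ hx).1) hJc (fun hyJ => ?_)
    exact absurd (hJb hyJ) (not_le.2 (lt_of_le_of_lt hcy hbc))
  have hun : (I ∩ Iic y) ∪ (I ∩ Ici y) = I := by
    rw [← inter_union_distrib_left, Iic_union_Ici, inter_univ]
  refine ⟨?_, fun hmax => ?_, fun hmin => ?_⟩
  · rw [← hun]
    refine ord_glue ⟨hy, le_rfl⟩ ⟨hy, le_rfl⟩ h1 h2 (fun x hx hx' => le_antisymm hx.2 hx'.2)
      ?_ ?_
    · rintro x ⟨hx, hxy⟩ hne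
      refine mem_of_superset ((h.iio y).mem_nhds (lt_of_le_of_ne hxy hne)) ?_
      intro z hz hz'
      exact absurd hz (not_lt.2 hz'.2)
    · rintro x ⟨hx, hxy⟩ hne
      refine mem_of_superset ((h.ioi y).mem_nhds (lt_of_le_of_ne hxy hne.symm)) ?_
      intro z hz hz'
      exact absurd hz (not_lt.2 hz'.2)
  · have : I ∩ Iic y = I := inter_eq_left.2 hmax
    rwa [this] at h1
  · have : I ∩ Ici y = I := inter_eq_left.2 hmin
    rwa [this] at h2

theorem good_around_half (h : GOS α) {y : α} {I : Set α} (hI : OrdConnected I) (hy : y ∈ I)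
    (hg : ∀ J ⊆ I, OrdConnected J → y ∉ J → Good J) :
    ∀ z ∈ I, (∀ x ∈ I, x ≤ z) → OrdAt I z := by
  intro z hz hmax
  rcases eq_or_lt_of_le (hmax y hy) with h1 | h1
  · subst h1
    exact (ord_around h hI hy hg).2.1 hmax
  · obtain ⟨v, ⟨hv, hyv⟩, hiso⟩ := iso_within h (J := I) (T := I ∩ Ioi y) ⟨_, h.ioi y, rfl⟩
      ⟨z, hz, h1⟩
    rw [← inter_split I v, union_comm]
    have h2 : Good (I ∩ Ici v) := hg _ inter_subset_left (hI.inter ordConnected_Ici)
      (fun h3 => absurd hyv (not_lt.2 h3.2))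
    have h3 : Ord (I ∩ Iio v) := (ord_around h (hI.inter ordConnected_Iio) ⟨hy, hyv⟩
      (fun J hJ => hg J (fun x hx => (hJ hx).1))).1
    exact ordAt_union h.sc ⟨hz, hmax v hv⟩ (h2.2.2 z ⟨hz, hmax v hv⟩ (fun x hx => hmax x hx.1))
      h3 (sep_split h hv hiso).symm

theorem good_around (h : GOS α) {y : α} {I : Set α} (hI : OrdConnected I) (hy : y ∈ I)
    (hg : ∀ J ⊆ I, OrdConnected J → y ∉ J → Good J) : Good I := by
  refine ⟨(ord_around h hI hy hg).1, ?_, good_around_half h hI hy hg⟩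
  exact good_around_half (α := αᵒᵈ) h.dual hI.dual hy (fun J hJ hJc hyJ =>
    (hg J hJ hJc.dual hyJ).dual)

theorem good_univ (h : GOS α) : Good (univ : Set α) := by
  apply theoremG h
  by_contra hcon
  push Not at hcon
  set D : Set α := {x | ∀ V : Set α, IsOpen V → OrdConnected V → x ∈ V → ¬ HG V} with hD
  have hDne : D.Nonempty := hcon
  obtain ⟨y, hy, U, hU, hUD⟩ := h.sc D hDne
  have hyU : y ∈ U := by
    have : y ∈ U ∩ D := by rw [hUD]; rfl
    exact this.1
  obtain ⟨V, hVU, hVo, hVc, hyV⟩ := exists_convex_nhd h hU hyU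
  apply hy V hVo hVc hyV
  have key : ∀ J ⊆ V, OrdConnected J → y ∉ J → Good J := by
    intro J hJ hJc hyJ
    apply theoremG_set h hJc
    intro x hx
    have hxD : x ∉ D := by
      intro hxD
      have : x ∈ U ∩ D := ⟨hVU (hJ hx), hxD⟩
      rw [hUD, mem_singleton_iff] at this
      rw [this] at hx
      exact hyJ hx
    rw [hD] at hxD
    simp only [mem_ofPred_eq] at hxD
    push Not at hxD
    exact hxD
  intro J hJ hJc
  by_cases hyJ : y ∈ J
  · exact good_around h hJc hyJ (fun J' hJ' => key J' (hJ'.trans hJ))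
  · exact key J hJ hJc hyJ

/-- Scattered linearly ordered spaces are scattered generalized ordered spaces. -/
theorem gos_of_orderTopology [OrderTopology α] (hs : Scatt α) : GOS α where
  iio := fun a => isOpen_Iio
  ioi := fun a => isOpen_Ioi
  left := fun x U hU => by
    by_cases hx : ∃ l, l < x
    · obtain ⟨l, hl, hlU⟩ := exists_Ioc_subset_of_mem_nhds hU hx
      exact Or.inr ⟨l, hl, fun y hy => hlU ⟨hy.1, hy.2.le⟩⟩
    · left
      push Not at hx
      exact mem_of_superset univ_mem (fun y _ => hx y)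
  right := fun x U hU => by
    by_cases hx : ∃ l, x < l
    · obtain ⟨l, hl, hlU⟩ := exists_Ico_subset_of_mem_nhds hU hx
      exact Or.inr ⟨l, hl, fun y hy => hlU ⟨hy.1.le, hy.2⟩⟩
    · left
      push Not at hx
      exact mem_of_superset univ_mem (fun y _ => hx y)
  sc := hs

/-- from the relational description to a linear order with its order topology -/
theorem exists_order_of_ord {Y : Type*} [TopologicalSpace Y] (h : Ord (univ : Set Y)) :
    ∃ o : LinearOrder Y,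
      @OrderTopology Y _ (@PartialOrder.toPreorder Y (@LinearOrder.toPartialOrder Y o)) := by
  classical
  obtain ⟨R, hR⟩ := h
  have hst : IsStrictTotalOrder Y R :=
    { irrefl := fun x => hR.lin.irr x (mem_univ _)
      trans := fun x y z => hR.lin.tr x (mem_univ _) y (mem_univ _) z (mem_univ _)
      trichotomous := fun a b h1 h2 => by
        by_contra hab
        rcases hR.lin.tot a (mem_univ _) b (mem_univ _) hab with h3 | h3
        · exact h1 h3
        · exact h2 h3 }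
  let o : LinearOrder Y := linearOrderOfSTO R
  refine ⟨o, ?_⟩
  have hlt : ∀ x y : Y, x < y ↔ R x y := fun x y => Iff.rfl
  have hop1 : ∀ a : Y, IsOpen (Ioi a) := by
    intro a
    rw [isOpen_iff_mem_nhds]
    intro x hx
    have := hR.up a (mem_univ _) x (mem_univ _) hx
    rw [nhdsWithin_univ] at this
    exact this
  have hop2 : ∀ a : Y, IsOpen (Iio a) := by
    intro a
    rw [isOpen_iff_mem_nhds]
    intro x hx
    have := hR.dn a (mem_univ _) x (mem_univ _) hx
    rw [nhdsWithin_univ] at this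
    exact this
  constructor
  apply le_antisymm
  · apply le_generateFrom
    rintro s ⟨a, rfl | rfl⟩
    · exact hop1 a
    · exact hop2 a
  · rw [TopologicalSpace.le_def]
    intro U hU
    let g : Set (Set Y) := {s | ∃ a, s = Ioi a ∨ s = Iio a}
    rw [@isOpen_iff_forall_mem_open Y (TopologicalSpace.generateFrom g) U]
    intro x hx
    have hUx : U ∈ 𝓝[univ] x := by
      rw [nhdsWithin_univ]
      exact hU.mem_nhds hx
    have hL : ∃ L : Set Y, IsOpen[TopologicalSpace.generateFrom g] L ∧ x ∈ L ∧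
        ∀ y ∈ L, y < x → y ∈ U := by
      rcases hR.ln x (mem_univ _) U hUx with h1 | ⟨a, _, hax, h1⟩
      · exact ⟨univ, @isOpen_univ _ (TopologicalSpace.generateFrom g), mem_univ _,
          fun y _ hyx => absurd hyx (h1 y (mem_univ _))⟩
      · exact ⟨Ioi a, TopologicalSpace.isOpen_generateFrom_of_mem ⟨a, Or.inl rfl⟩, hax,
          fun y hy hyx => h1 y (mem_univ _) hy hyx⟩
    have hRr : ∃ L : Set Y, IsOpen[TopologicalSpace.generateFrom g] L ∧ x ∈ L ∧
        ∀ y ∈ L, x < y → y ∈ U := by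
      rcases hR.rn x (mem_univ _) U hUx with h1 | ⟨a, _, hax, h1⟩
      · exact ⟨univ, @isOpen_univ _ (TopologicalSpace.generateFrom g), mem_univ _,
          fun y _ hyx => absurd hyx (h1 y (mem_univ _))⟩
      · exact ⟨Iio a, TopologicalSpace.isOpen_generateFrom_of_mem ⟨a, Or.inr rfl⟩, hax,
          fun y hy hyx => h1 y (mem_univ _) hy hyx⟩
    obtain ⟨L, hL1, hL2, hL3⟩ := hL
    obtain ⟨L', hL1', hL2', hL3'⟩ := hRr
    refine ⟨L ∩ L', ?_, @IsOpen.inter Y (TopologicalSpace.generateFrom g) L L' hL1 hL1',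
      hL2, hL2'⟩
    rintro y ⟨hy1, hy2⟩
    rcases lt_trichotomy y x with h1 | h1 | h1
    · exact hL3 y hy1 h1
    · rw [h1]; exact hx
    · exact hL3' y hy2 h1

theorem main {X : Type*} [TopologicalSpace X] [LinearOrder X] [OrderTopology X]
    (hs : ∀ A : Set X, A.Nonempty → ∃ x ∈ A, ∃ U : Set X, IsOpen U ∧ U ∩ A = {x}) (S : Set X) :
    ∃ o : LinearOrder S,
      @OrderTopology S _ (@PartialOrder.toPreorder S (@LinearOrder.toPartialOrder S o)) :=
  exists_order_of_ord (good_univ ((gos_of_orderTopology hs).sub S)).1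

end Pool.Agent.NH82.Scat
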